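import Pool.Agent.H.MP_7d3ffc_al.SP.Sa

/-!
# Module SP/Sd: the number of conjugates of a linear character

`x` is a root group in `P`, `t` a family of elements of the normalizer of `P` with
`t u * x c * (t u)⁻¹ = x (u ^ e * c)`, `e = 1` or `e = 2`. For `u : Fˣ` let `ν_u` be the character
`y ↦ μ (t u * y * (t u)⁻¹)` of `P` (it is in the set: take `g = t u`; the condition is
`y' = g * y * g⁻¹ → ν y = μ y'`). Then `ν_u (x c) = μ (x (u ^ e * c))`. If `ν_u = ν_v` then
`μ (x ((u ^ e - v ^ e) * c)) = 1` for all `c`, so `u ^ e = v ^ e` (otherwise `(u ^ e - v ^ e) * c` takes all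
values, against `hne`). So the set has at least as many elements as the set of the `u ^ e`, i.e. at least
`(q - 1) / 2` elements (at most two `u` have the same square), and `q - 1` for `p = 2` (squares are
injective in characteristic 2) or `e = 1`. `q` is a power of `p` greater than `p`
(`FiniteField.card`), so `q ≥ p ^ 2` and `(q - 1) / 2 ≥ p` for `p ≥ 3`, `q - 1 ≥ p` for `p = 2`.
-/

namespace Pool.Agent.H.MP_7d3ffc_al.SP

open Matrix

variable {n : ℕ} {F : Type*} [Field F]

/-- the conjugate character -/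
noncomputable def Sd_nu {G : Type*} [Group G] (P : Subgroup G) (μ : P →* ℂˣ) (g : G)
    (hg : g ∈ Subgroup.normalizer (P : Set G)) : P →* ℂˣ :=
  μ.comp
    { toFun := fun y => ⟨g * y * g⁻¹, (Subgroup.mem_normalizer_iff.1 hg y).1 y.2⟩
      map_one' := by
        apply Subtype.ext
        simp
      map_mul' := by
        intro a b
        apply Subtype.ext
        simp [mul_assoc] }

theorem Sd_nu_apply {G : Type*} [Group G] (P : Subgroup G) (μ : P →* ℂˣ) (g : G)
    (hg : g ∈ Subgroup.normalizer (P : Set G)) (a b : P) (h : (b : G) = g * a * g⁻¹) :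
    Sd_nu P μ g hg a = μ b := by
  have h1 : b = ⟨g * a * g⁻¹, (Subgroup.mem_normalizer_iff.1 hg a).1 a.2⟩ := Subtype.ext h
  rw [h1]
  rfl

theorem Sd_finite {G : Type*} [Group G] [Finite G] (P : Subgroup G) (μ : P →* ℂˣ) :
    {ν : P →* ℂˣ | ∃ g ∈ Subgroup.normalizer (P : Set G),
      ∀ a b : P, (b : G) = g * a * g⁻¹ → ν a = μ b}.Finite := by
  refine (Set.finite_range fun g : Subgroup.normalizer (P : Set G) =>
    Sd_nu P μ g.1 g.2).subset ?_
  rintro ν ⟨g, hg, h⟩
  refine ⟨⟨g, hg⟩, ?_⟩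
  ext a
  have hb : g * (a : G) * g⁻¹ ∈ P := (Subgroup.mem_normalizer_iff.1 hg a).1 a.2
  have h1 := h a ⟨_, hb⟩ rfl
  have h2 := Sd_nu_apply P μ g hg a ⟨_, hb⟩ rfl
  show (((Sd_nu P μ g hg) a : ℂˣ) : ℂ) = ((ν a : ℂˣ) : ℂ)
  rw [h1, h2]

theorem Sd_card {p : ℕ} [Fact p.Prime] [CharP F p] [Finite F] (hq : p < Nat.card F) :
    p ^ 2 ≤ Nat.card F := by
  have := Fintype.ofFinite F
  obtain ⟨k, hp, hk⟩ := FiniteField.card F p
  rw [Nat.card_eq_fintype_card, hk] at hq ⊢
  refine Nat.pow_le_pow_right hp.pos ?_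
  by_contra hlt
  have h1 : (k : ℕ) ≤ 1 := by omega
  have h2 : p ^ (k : ℕ) ≤ p ^ 1 := Nat.pow_le_pow_right hp.pos h1
  rw [pow_one] at h2
  omega

theorem orb_root {G : Type*} [Group G] [Finite G] (P : Subgroup G) {p : ℕ} [Fact p.Prime]
    [CharP F p] [Finite F] (hq : p < Nat.card F) (μ : P →* ℂˣ) (x : F → P)
    (hx : ∀ a b, x (a + b) = x a * x b) (t : Fˣ → G)
    (ht : ∀ u, t u ∈ Subgroup.normalizer (P : Set G)) (e : ℕ) (he : e = 1 ∨ e = 2)
    (hconj : ∀ (u : Fˣ) (c : F), t u * (x c : G) * (t u)⁻¹ = (x ((u : F) ^ e * c) : G))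
    (hne : ∃ c, μ (x c) ≠ 1) :
    p ≤ {ν : P →* ℂˣ | ∃ g ∈ Subgroup.normalizer (P : Set G),
      ∀ a b : P, (b : G) = g * a * g⁻¹ → ν a = μ b}.ncard := by
  classical
  have := Fintype.ofFinite F
  have hp2 := Sd_card (F := F) hq
  have hp : p.Prime := Fact.out
  set f : Fˣ → (P →* ℂˣ) := fun u => Sd_nu P μ (t u) (ht u) with hf
  have hS : ((Finset.univ.image f : Finset (P →* ℂˣ)) : Set (P →* ℂˣ)) ⊆
      {ν : P →* ℂˣ | ∃ g ∈ Subgroup.normalizer (P : Set G),
        ∀ a b : P, (b : G) = g * a * g⁻¹ → ν a = μ b} := by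
    intro ν hν
    obtain ⟨u, -, rfl⟩ := Finset.mem_image.1 (Finset.mem_coe.1 hν)
    exact ⟨t u, ht u, fun a b h => Sd_nu_apply P μ (t u) (ht u) a b h⟩
  have hle := Set.ncard_le_ncard hS (Sd_finite P μ)
  rw [Set.ncard_coe_finset] at hle
  refine le_trans ?_ hle
  have hval : ∀ (u : Fˣ) (c : F), f u (x c) = μ (x ((u : F) ^ e * c)) := fun u c =>
    Sd_nu_apply P μ (t u) (ht u) (x c) _ (hconj u c).symm
  have hinj : ∀ u v : Fˣ, f u = f v → (u : F) ^ e = (v : F) ^ e := by
    intro u v huv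
    by_contra hne'
    obtain ⟨c, hc⟩ := hne
    have hd : (u : F) ^ e - (v : F) ^ e ≠ 0 := sub_ne_zero.2 hne'
    apply hc
    have h1 : μ (x ((u : F) ^ e * (c / ((u : F) ^ e - (v : F) ^ e)))) =
        μ (x ((v : F) ^ e * (c / ((u : F) ^ e - (v : F) ^ e)))) := by
      rw [← hval u, ← hval v, huv]
    have h2 : (u : F) ^ e * (c / ((u : F) ^ e - (v : F) ^ e)) =
        c + (v : F) ^ e * (c / ((u : F) ^ e - (v : F) ^ e)) := by
      field_simp
      ring
    rw [h2, hx, map_mul] at h1
    exact mul_eq_right.1 h1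
  have hcardU : Fintype.card Fˣ = Nat.card F - 1 := by
    rw [Fintype.card_units, Nat.card_eq_fintype_card]
  by_cases hcase : e = 1 ∨ p = 2
  · -- injective
    have hf' : Function.Injective f := by
      intro u v huv
      have h1 := hinj u v huv
      apply Units.ext
      rcases hcase with rfl | rfl
      · rwa [pow_one, pow_one] at h1
      · rcases he with rfl | rfl
        · rwa [pow_one, pow_one] at h1
        · have h2 : ((u : F) - (v : F)) ^ 2 = 0 := by
            rw [sub_pow_char, h1, sub_self]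
          exact sub_eq_zero.1 (pow_eq_zero_iff (two_ne_zero)|>.1 h2)
    rw [Finset.card_image_of_injective _ hf', Finset.card_univ, hcardU]
    omega
  · have he2 : e = 2 := by
      rcases he with h | h
      · exact absurd (Or.inl h) hcase
      · exact h
    have hp3 : 3 ≤ p := by
      have h1 := hp.two_le
      have h2 : p ≠ 2 := fun h => hcase (Or.inr h)
      omega
    subst he2
    have h1 := Finset.card_le_mul_card_image (f := f) (Finset.univ : Finset Fˣ) 2 (by
      intro b hb
      obtain ⟨u, -, rfl⟩ := Finset.mem_image.1 hb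
      have h2 : (Finset.univ.filter fun a => f a = f u) ⊆ {u, -u} := by
        intro a ha
        have h3 := hinj a u (Finset.mem_filter.1 ha).2
        rw [sq_eq_sq_iff_eq_or_eq_neg] at h3
        rw [Finset.mem_insert, Finset.mem_singleton]
        rcases h3 with h3 | h3
        · exact Or.inl (Units.ext h3)
        · right
          apply Units.ext
          rw [Units.val_neg]
          exact h3
      exact (Finset.card_le_card h2).trans Finset.card_le_two)
    rw [Finset.card_univ, hcardU] at h1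
    have h4 : 3 * p ≤ p ^ 2 := by
      rw [sq]
      exact Nat.mul_le_mul_right p hp3
    omega

end Pool.Agent.H.MP_7d3ffc_al.SP
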