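import Pool.Agent.H.MP_7d3ffc_al.LC.BnD

/-!
# Module SP/Fac: the factors
-/

namespace Pool.Agent.H.MP_7d3ffc_al.SP

open Matrix in
/-- `S` is isomorphic to a special linear group over a finite field `F` of characteristic `p`, or to a symplectic
group over such a field with more than `p` elements, or `S` has a split BN-pair as in `BNFactor` -/
def Factor.{u} (p : ℕ) (S : Type u) [Group S] : Prop :=
  (∃ (n : ℕ) (F : Type) (_ : Field F) (_ : Finite F) (_ : CharP F p),
    Nonempty (S ≃* SpecialLinearGroup (Fin n) F) ∨
      (p < Nat.card F ∧ Nonempty (S ≃* symplecticGroup (Fin n) F))) ∨ LC.BNFactor p S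

end Pool.Agent.H.MP_7d3ffc_al.SP
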