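import Mathlib

/-!
# Module SP/Rg: groups with root groups

The structure `RootGroups p S` collects properties which every finite group of Lie type over a field with more
than `p` elements, `p` its characteristic, has when its root groups are commutative (all untwisted types, the
twisted types of `A` in odd rank, `D`, `E₆` and the triality groups).
-/

namespace Pool.Agent.H.MP_7d3ffc_al.SP

/-- root groups over finite fields of characteristic `p` with more than `p` elements in the group `S` -/
structure RootGroups.{u} (p : ℕ) (S : Type u) [Group S] where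
  /-- the index set of the roots -/
  ι : Type
  M : Type
  N : Type
  [finι : Finite ι]
  [groupM : AddCommGroup M]
  [moduleM : Module ℚ M]
  [groupN : AddCommGroup N]
  [moduleN : Module ℚ N]
  /-- a reduced crystallographic root system with roots `Φ.root i`, `i` in `ι` -/
  Φ : RootPairing ι ℚ M N
  [crys : Φ.IsCrystallographic]
  [red : Φ.IsReduced]
  /-- a base of it -/
  b : Φ.Base
  /-- the fields, finite of characteristic `p` with more than `p` elements -/
  F : ι → Type
  [fieldF : ∀ i, Field (F i)]
  [finF : ∀ i, Finite (F i)]
  [charF : ∀ i, CharP (F i) p]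
  card_lt : ∀ i, p < Nat.card (F i)
  /-- the elements of the root groups -/
  x : ∀ i, F i → S
  x_add : ∀ i a c, x i (a + c) = x i a * x i c
  /-- Chevalley's commutator relations: for `i ≠ ±j` the commutator of `x i a` and `x j c` is a product of
  elements of the root groups of the roots `m • root i + n • root j`, `m, n > 0` -/
  comm : ∀ i j, i ≠ j → Φ.root i ≠ -Φ.root j → ∀ a c,
    x i a * x j c * (x i a)⁻¹ * (x j c)⁻¹ ∈ Subgroup.closure
      {g : S | ∃ k, ∃ m n : ℕ, 0 < m ∧ 0 < n ∧ Φ.root k = m • Φ.root i + n • Φ.root j ∧
        ∃ d, g = x k d}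
  /-- the subgroup generated by the root groups of the positive roots; it is a Sylow `p`-subgroup -/
  U : Subgroup S
  U_eq : U = Subgroup.closure {g : S | ∃ j, b.IsPos j ∧ ∃ c, g = x j c}
  pgroup : IsPGroup p U
  index : ¬ p ∣ U.index
  /-- elements of the torus: `h i u` normalizes `U` and acts on the root group of `i` as the square of `u` -/
  h : ∀ i, (F i)ˣ → S
  h_norm : ∀ i, b.IsPos i → ∀ u, h i u ∈ Subgroup.normalizer (U : Set S)
  h_x : ∀ i, b.IsPos i → ∀ (u : (F i)ˣ) (c : F i),
    h i u * x i c * (h i u)⁻¹ = x i ((u : F i) ^ 2 * c)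
  /-- `S` is generated by the normalizer of `U` and the root groups of the simple roots and their negatives -/
  gen : Subgroup.normalizer (U : Set S) ⊔ Subgroup.closure
    {g : S | ∃ i ∈ b.support, ∃ i', (i' = i ∨ Φ.root i' = -Φ.root i) ∧ ∃ c, g = x i' c} = ⊤

end Pool.Agent.H.MP_7d3ffc_al.SP
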