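import Mathlib

/-!
# Module SP/Sa: the symplectic group, its unitriangular subgroup and root elements

`symplecticGroup (Fin n) F` is the group of the block matrices `A = (a b; c d)` with `A J Aᵀ = J`. The index
set `Fin n ⊕ Fin n` is ordered by `ord`: `inl 0 < ... < inl (n-1) < inr (n-1) < ... < inr 0`. `SU` is the
subgroup of the matrices in the symplectic group which are unitriangular for this order.
-/

namespace Pool.Agent.H.MP_7d3ffc_al.SP

open Matrix

variable {n : ℕ} {F : Type*} [Field F]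

/-- the order of the indices -/
def ord : Fin n ⊕ Fin n → ℕ := Sum.elim (fun i => (i : ℕ)) fun i => 2 * n - 1 - i

@[simp] theorem ord_inl (i : Fin n) : ord (Sum.inl i : Fin n ⊕ Fin n) = i := rfl

@[simp] theorem ord_inr (i : Fin n) : ord (Sum.inr i : Fin n ⊕ Fin n) = 2 * n - 1 - i := rfl

theorem ord_lt (x : Fin n ⊕ Fin n) : ord x < 2 * n := by
  rcases x with i | i <;> simp <;> omega

theorem ord_inj : Function.Injective (ord : Fin n ⊕ Fin n → ℕ) := by
  rintro (i | i) (j | j) h <;> simp at h <;> simp [Fin.ext_iff] <;> omega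

theorem inv_ll (A : symplecticGroup (Fin n) F) (i j : Fin n) :
    (A⁻¹).1 (Sum.inl i) (Sum.inl j) = A.1 (Sum.inr j) (Sum.inr i) := by
  rw [SymplecticGroup.coe_inv, J, ← fromBlocks_toBlocks A.1]
  simp [fromBlocks_transpose, fromBlocks_multiply, fromBlocks_neg]

theorem inv_lr (A : symplecticGroup (Fin n) F) (i j : Fin n) :
    (A⁻¹).1 (Sum.inl i) (Sum.inr j) = - A.1 (Sum.inl j) (Sum.inr i) := by
  rw [SymplecticGroup.coe_inv, J, ← fromBlocks_toBlocks A.1]
  simp [fromBlocks_transpose, fromBlocks_multiply, fromBlocks_neg]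

theorem inv_rl (A : symplecticGroup (Fin n) F) (i j : Fin n) :
    (A⁻¹).1 (Sum.inr i) (Sum.inl j) = - A.1 (Sum.inr j) (Sum.inl i) := by
  rw [SymplecticGroup.coe_inv, J, ← fromBlocks_toBlocks A.1]
  simp [fromBlocks_transpose, fromBlocks_multiply, fromBlocks_neg]

theorem inv_rr (A : symplecticGroup (Fin n) F) (i j : Fin n) :
    (A⁻¹).1 (Sum.inr i) (Sum.inr j) = A.1 (Sum.inl j) (Sum.inl i) := by
  rw [SymplecticGroup.coe_inv, J, ← fromBlocks_toBlocks A.1]
  simp [fromBlocks_transpose, fromBlocks_multiply, fromBlocks_neg]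

/-- unitriangular matrices for the order `ord` -/
def Uni (A : Matrix (Fin n ⊕ Fin n) (Fin n ⊕ Fin n) F) : Prop :=
  (∀ x y, ord y < ord x → A x y = 0) ∧ ∀ x, A x x = 1

theorem Uni_mul {A B : Matrix (Fin n ⊕ Fin n) (Fin n ⊕ Fin n) F} (hA : Uni A) (hB : Uni B) :
    Uni (A * B) := by
  refine ⟨fun x y h => ?_, fun x => ?_⟩
  · rw [mul_apply]
    refine Finset.sum_eq_zero fun z _ => ?_
    rcases lt_or_ge (ord z) (ord x) with h1 | h1
    · rw [hA.1 x z h1, zero_mul]
    · rw [hB.1 z y (by omega), mul_zero]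
  · rw [mul_apply, Finset.sum_eq_single x]
    · rw [hA.2, hB.2, mul_one]
    · intro z _ hz
      have hz' : ord z ≠ ord x := fun h => hz (ord_inj h)
      rcases lt_or_gt_of_ne hz' with h1 | h1
      · rw [hA.1 x z h1, zero_mul]
      · rw [hB.1 z x h1, mul_zero]
    · simp

/-- the entry of a product of unitriangular matrices at two neighbours -/
theorem Uni_adj {A B : Matrix (Fin n ⊕ Fin n) (Fin n ⊕ Fin n) F} (hA : Uni A) (hB : Uni B)
    {x y : Fin n ⊕ Fin n} (h : ord y = ord x + 1) : (A * B) x y = A x y + B x y := by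
  have hxy : x ≠ y := by
    rintro rfl
    omega
  rw [mul_apply]
  have h1 : ∑ z, A x z * B z y = ∑ z ∈ {x, y}, A x z * B z y := by
    refine (Finset.sum_subset (Finset.subset_univ _) fun z _ hz => ?_).symm
    simp only [Finset.mem_insert, Finset.mem_singleton, not_or] at hz
    have h2 : ord z ≠ ord x := fun h => hz.1 (ord_inj h)
    have h3 : ord z ≠ ord y := fun h => hz.2 (ord_inj h)
    rcases lt_or_gt_of_ne h2 with h4 | h4
    · rw [hA.1 x z h4, zero_mul]
    · rw [hB.1 z y (by omega), mul_zero]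
  rw [h1, Finset.sum_pair hxy, hA.2, hB.2, one_mul, mul_one, add_comm]

variable (n F) in
/-- the unitriangular subgroup of the symplectic group -/
def SU : Subgroup (symplecticGroup (Fin n) F) where
  carrier := {A | Uni A.1}
  mul_mem' := fun {A B} hA hB => Uni_mul hA hB
  one_mem' := by
    refine ⟨fun x y h => ?_, fun x => ?_⟩
    · change (1 : Matrix (Fin n ⊕ Fin n) (Fin n ⊕ Fin n) F) x y = 0
      rw [one_apply_ne]
      rintro rfl
      omega
    · change (1 : Matrix (Fin n ⊕ Fin n) (Fin n ⊕ Fin n) F) x x = 1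
      rw [one_apply_eq]
  inv_mem' := fun {A} hA => by
    refine ⟨?_, ?_⟩
    · rintro (i | i) (j | j) h <;> simp only [ord_inl, ord_inr] at h
      · rw [inv_ll]
        exact hA.1 _ _ (by simp; omega)
      · rw [inv_lr, hA.1 _ _ (by simp; omega), neg_zero]
      · rw [inv_rl, hA.1 _ _ (by simp; omega), neg_zero]
      · rw [inv_rr]
        exact hA.1 _ _ (by simp; omega)
    · rintro (i | i)
      · rw [inv_ll]
        exact hA.2 _
      · rw [inv_rr]
        exact hA.2 _

theorem mem_SU {A : symplecticGroup (Fin n) F} : A ∈ SU n F ↔ Uni A.1 := Iff.rfl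

/-- the block diagonal matrix `(g 0; 0 (g⁻¹)ᵀ)` -/
def dl : GL (Fin n) F →* symplecticGroup (Fin n) F where
  toFun g := ⟨fromBlocks g.1 0 0 (g⁻¹).1ᵀ, by
    rw [SymplecticGroup.fromBlocks_mem_iff]
    simp [← transpose_mul]⟩
  map_one' := by
    apply Subtype.ext
    simp
  map_mul' := fun g h => by
    apply Subtype.ext
    simp [fromBlocks_multiply]

theorem dl_val (g : GL (Fin n) F) : (dl g).1 = fromBlocks g.1 0 0 (g⁻¹).1ᵀ := rfl

/-- the matrix `(1 s; 0 1)` -/
def bt (s : Matrix (Fin n) (Fin n) F) (hs : sᵀ = s) : symplecticGroup (Fin n) F :=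
  ⟨fromBlocks 1 s 0 1, by
    rw [SymplecticGroup.fromBlocks_mem_iff]
    simp [hs]⟩

theorem bt_val (s : Matrix (Fin n) (Fin n) F) (hs : sᵀ = s) :
    (bt s hs).1 = fromBlocks 1 s 0 1 := rfl

/-- the matrix `(1 0; s 1)` -/
def gm (s : Matrix (Fin n) (Fin n) F) (hs : sᵀ = s) : symplecticGroup (Fin n) F :=
  ⟨fromBlocks 1 0 s 1, by
    rw [SymplecticGroup.fromBlocks_mem_iff]
    simp [hs]⟩

theorem gm_val (s : Matrix (Fin n) (Fin n) F) (hs : sᵀ = s) :
    (gm s hs).1 = fromBlocks 1 0 s 1 := rfl

theorem bt_add (s t : Matrix (Fin n) (Fin n) F) (hs : sᵀ = s) (ht : tᵀ = t) :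
    bt (s + t) (by rw [transpose_add, hs, ht]) = bt s hs * bt t ht := by
  apply Subtype.ext
  change fromBlocks 1 (s + t) 0 1 = fromBlocks 1 s 0 1 * fromBlocks 1 t 0 1
  simp [fromBlocks_multiply, add_comm]

theorem gm_add (s t : Matrix (Fin n) (Fin n) F) (hs : sᵀ = s) (ht : tᵀ = t) :
    gm (s + t) (by rw [transpose_add, hs, ht]) = gm s hs * gm t ht := by
  apply Subtype.ext
  change fromBlocks 1 0 (s + t) 1 = fromBlocks 1 0 s 1 * fromBlocks 1 0 t 1
  simp [fromBlocks_multiply, add_comm]

theorem bt_mem (s : Matrix (Fin n) (Fin n) F) (hs : sᵀ = s) : bt s hs ∈ SU n F := by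
  refine ⟨?_, ?_⟩
  · rintro (i | i) (j | j) h <;> simp only [ord_inl, ord_inr] at h
    · rw [bt_val, fromBlocks_apply₁₁, one_apply_ne]
      rintro rfl
      omega
    · omega
    · rfl
    · rw [bt_val, fromBlocks_apply₂₂, one_apply_ne]
      rintro rfl
      omega
  · rintro (i | i)
    · rw [bt_val, fromBlocks_apply₁₁, one_apply_eq]
    · rw [bt_val, fromBlocks_apply₂₂, one_apply_eq]

/-- the elementary matrix `1 + c E_ij` as an element of the general linear group -/
def tr {i j : Fin n} (h : i ≠ j) (c : F) : GL (Fin n) F where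
  val := transvection i j c
  inv := transvection i j (-c)
  val_inv := by rw [transvection_mul_transvection_same i j h, add_neg_cancel, transvection_zero]
  inv_val := by rw [transvection_mul_transvection_same i j h, neg_add_cancel, transvection_zero]

theorem tr_mem {i j : Fin n} (h : i < j) (c : F) : dl (tr h.ne c) ∈ SU n F := by
  refine ⟨?_, ?_⟩
  · rintro (x | x) (y | y) h' <;> simp only [ord_inl, ord_inr] at h'
    · rw [dl_val, fromBlocks_apply₁₁]
      change transvection i j c x y = 0
      rw [transvection, Matrix.add_apply, one_apply_ne (by rintro rfl; omega), single_apply_of_ne, add_zero]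
      rintro ⟨rfl, rfl⟩
      omega
    · omega
    · rfl
    · rw [dl_val, fromBlocks_apply₂₂]
      change (transvection i j (-c))ᵀ x y = 0
      rw [transpose_apply, transvection, Matrix.add_apply, one_apply_ne (by rintro rfl; omega),
        single_apply_of_ne, add_zero]
      rintro ⟨rfl, rfl⟩
      omega
  · rintro (x | x)
    · rw [dl_val, fromBlocks_apply₁₁]
      change transvection i j c x x = 1
      rw [transvection, Matrix.add_apply, one_apply_eq, single_apply_of_ne, add_zero]
      rintro ⟨rfl, rfl⟩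
      omega
    · rw [dl_val, fromBlocks_apply₂₂]
      change (transvection i j (-c))ᵀ x x = 1
      rw [transpose_apply, transvection, Matrix.add_apply, one_apply_eq, single_apply_of_ne, add_zero]
      rintro ⟨rfl, rfl⟩
      omega

/-- the diagonal matrix with entries `t` -/
def dg (t : Fin n → Fˣ) : GL (Fin n) F where
  val := diagonal fun i => (t i : F)
  inv := diagonal fun i => ((t i)⁻¹ : Fˣ).val
  val_inv := by simp
  inv_val := by simp

theorem single_symm (l : Fin n) (c : F) : (single l l c)ᵀ = single l l c := by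
  rw [transpose_single]

theorem pair_symm (i j : Fin n) (c : F) :
    (single i j c + single j i c)ᵀ = single i j c + single j i c := by
  rw [transpose_add, transpose_single, transpose_single, add_comm]

variable (n F) in
/-- the group generated by the normalizers of the subgroups between the commutator subgroup of `SU` and
`SU` -/
def Kg : Subgroup (symplecticGroup (Fin n) F) :=
  ⨆ Q ∈ {Q : Subgroup (symplecticGroup (Fin n) F) | ⁅SU n F, SU n F⁆ ≤ Q ∧ Q ≤ SU n F},
    Subgroup.normalizer (Q : Set (symplecticGroup (Fin n) F))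

theorem mem_Kg {Q : Subgroup (symplecticGroup (Fin n) F)} (h1 : ⁅SU n F, SU n F⁆ ≤ Q)
    (h2 : Q ≤ SU n F) {g : symplecticGroup (Fin n) F}
    (hg : g ∈ Subgroup.normalizer (Q : Set (symplecticGroup (Fin n) F))) : g ∈ Kg n F := by
  unfold Kg
  exact (le_iSup₂_of_le (f := fun (Q : Subgroup (symplecticGroup (Fin n) F))
    (_ : Q ∈ {Q : Subgroup (symplecticGroup (Fin n) F) | ⁅SU n F, SU n F⁆ ≤ Q ∧ Q ≤ SU n F}) =>
    Subgroup.normalizer (Q : Set (symplecticGroup (Fin n) F))) Q ⟨h1, h2⟩ le_rfl) hg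

end Pool.Agent.H.MP_7d3ffc_al.SP
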