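import Pool.Agent.H.MP_7d3ffc_al.SP.Sa

/-!
# Module SP/Sb: `SU` is a `p`-group

Write `A = 1 + N` for `A` in `SU n F`; `N ^ k` has entry `0` at `(x, y)` if `ord y < ord x + k` (induction on
`k`), so `N ^ (2 * n) = 0`. `A ^ (p ^ m) = 1 + N ^ (p ^ m)` (`Commute.add_pow_char_pow`, characteristic `p` of
the matrix ring) `= 1` for `p ^ m ≥ 2 * n`. (`IsPGroup p` means: every element has order a power of `p`.)
-/

namespace Pool.Agent.H.MP_7d3ffc_al.SP

open Matrix

variable {n : ℕ} {F : Type*} [Field F]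

theorem Sb_pow {A : Matrix (Fin n ⊕ Fin n) (Fin n ⊕ Fin n) F} (hA : Uni A) (k : ℕ) :
    ∀ x y, ord y < ord x + k → ((A - 1) ^ k) x y = 0 := by
  induction k with
  | zero =>
    intro x y h
    rw [pow_zero, one_apply_ne]
    rintro rfl
    omega
  | succ k ih =>
    intro x y h
    rw [pow_succ, mul_apply]
    refine Finset.sum_eq_zero fun z _ => ?_
    rcases lt_or_ge (ord z) (ord x + k) with h1 | h1
    · rw [ih x z h1, zero_mul]
    · have h2 : (A - 1) z y = 0 := by
        rw [Matrix.sub_apply]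
        rcases lt_or_eq_of_le (show ord y ≤ ord z by omega) with h3 | h3
        · rw [hA.1 z y h3, one_apply_ne, sub_zero]
          rintro rfl
          omega
        · have h4 : y = z := ord_inj h3
          rw [h4, hA.2, one_apply_eq, sub_self]
      rw [h2, mul_zero]

theorem Sb_one {p : ℕ} [Fact p.Prime] [CharP F p] {A : Matrix (Fin n ⊕ Fin n) (Fin n ⊕ Fin n) F}
    (hA : Uni A) : A ^ p ^ (2 * n) = 1 := by
  rcases Nat.eq_zero_or_pos n with h0 | h0
  · subst h0
    ext x y
    rcases x with x | x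
    · exact x.elim0
    · exact x.elim0
  · have : Nonempty (Fin n ⊕ Fin n) := ⟨Sum.inl ⟨0, h0⟩⟩
    have hp : 1 < p := (Fact.out : p.Prime).one_lt
    have h1 : (A - 1) ^ p ^ (2 * n) = 0 := by
      ext x y
      refine Sb_pow hA _ x y ?_
      have h2 := ord_lt y
      have h3 : 2 * n < p ^ (2 * n) := Nat.lt_pow_self hp
      omega
    have h2 : A = (A - 1) + 1 := (sub_add_cancel A 1).symm
    have h3 : Commute (A - 1) 1 := Commute.one_right _
    rw [h2, add_pow_char_pow_of_commute p _ h3, h1, one_pow, zero_add]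

theorem SU_pgroup {p : ℕ} [Fact p.Prime] [CharP F p] : IsPGroup p (SU n F) := by
  intro A
  refine ⟨2 * n, ?_⟩
  apply Subtype.ext
  apply Subtype.ext
  show (A.1.1 : Matrix (Fin n ⊕ Fin n) (Fin n ⊕ Fin n) F) ^ p ^ (2 * n) = 1
  exact Sb_one A.2

end Pool.Agent.H.MP_7d3ffc_al.SP
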