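import Pool.Agent.H.MP_7d3ffc_al.SP.Sc0

/-!
# Module SP/Sc: `SU` is a maximal `p`-subgroup

`V = Fin n ⊕ Fin n → F`, `V k` the submodule of the `v` with `v x = 0` for `k ≤ ord x`. By
induction on `k ≤ 2 * n`: every `A ∈ S` and `v ∈ V k` satisfy `A v - v ∈ V (k - 1)`. Step from `k` to
`k + 1 ≤ 2 * n`: `S` acts on the finite module `V ⧸ V k` (`Submodule.mapQ`; a homomorphism from `S` to
`Module.End F (V ⧸ V k)` and `MulAction.compHom`), which is not zero and has order a multiple of `p`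
(characteristic `p`), `0` is a fixed point, so there is another fixed point
(`IsPGroup.exists_fixed_point_of_prime_dvd_card_of_fixed_point`), i.e. `v ∉ V k` with
`A v - v ∈ V k` for all `A ∈ S`. If `v z ≠ 0` for some `z` with `ord z > k` take `w` with
`ord w = k` and `exists_el`: `(A v - v) w = ε * v z ≠ 0`, contradiction. So `v ∈ V (k + 1)`, and
`V (k + 1) = V k + F v` (only one more coordinate). At the end `v = Pi.single y 1 ∈ V (ord y + 1)` gives
that `A x y = 0` for `ord y < ord x` and `A y y = 1`.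
-/

namespace Pool.Agent.H.MP_7d3ffc_al.SP

open Matrix

variable {n : ℕ} {F : Type*} [Field F]

theorem Sc_sum {k : ℕ} {f : Fin n ⊕ Fin n → F} (hf : ∀ y, ord y < k → f y = 0) :
    ∑ y, f y = ∑ y : {y : Fin n ⊕ Fin n // k ≤ ord y}, f y.1 := by
  have h1 : ∑ y : {y : Fin n ⊕ Fin n // k ≤ ord y}, f y.1
      = ∑ y ∈ Finset.univ.filter (fun y : Fin n ⊕ Fin n => k ≤ ord y), f y := by
    rw [Finset.sum_subtype (Finset.univ.filter (fun y : Fin n ⊕ Fin n => k ≤ ord y))
      (p := fun y : Fin n ⊕ Fin n => k ≤ ord y) (fun x => by simp)]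
  rw [h1]
  refine (Finset.sum_subset (Finset.subset_univ _) fun y _ hy => hf y ?_).symm
  simpa using hy

/-- the action on the coordinates from `k` on -/
@[reducible]
def Sc_act (S : Subgroup (symplecticGroup (Fin n) F)) (k : ℕ)
    (h : ∀ A ∈ S, ∀ x y : Fin n ⊕ Fin n, ord y < k → k ≤ ord x → A.1 x y = 0) :
    MulAction S ({x : Fin n ⊕ Fin n // k ≤ ord x} → F) where
  smul A w := fun x => ∑ y : {x : Fin n ⊕ Fin n // k ≤ ord x}, A.1.1 x.1 y.1 * w y
  one_smul w := by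
    funext x
    change ∑ y : {x : Fin n ⊕ Fin n // k ≤ ord x},
      (1 : Matrix (Fin n ⊕ Fin n) (Fin n ⊕ Fin n) F) x.1 y.1 * w y = w x
    rw [Finset.sum_eq_single x]
    · rw [one_apply_eq, one_mul]
    · intro y _ hy
      rw [one_apply_ne (fun h => hy (Subtype.ext h.symm)), zero_mul]
    · simp
  mul_smul A B w := by
    funext x
    change ∑ y : {x : Fin n ⊕ Fin n // k ≤ ord x}, (A.1.1 * B.1.1) x.1 y.1 * w y
      = ∑ z : {x : Fin n ⊕ Fin n // k ≤ ord x}, A.1.1 x.1 z.1 *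
        ∑ y : {x : Fin n ⊕ Fin n // k ≤ ord x}, B.1.1 z.1 y.1 * w y
    simp_rw [mul_apply, Finset.mul_sum]
    rw [Finset.sum_comm]
    refine Finset.sum_congr rfl fun y _ => ?_
    rw [Sc_sum (k := k) (f := fun z => A.1.1 x.1 z * B.1.1 z y.1)
      (fun z hz => by rw [h A.1 A.2 x.1 z hz x.2, zero_mul]), Finset.sum_mul]
    refine Finset.sum_congr rfl fun z _ => ?_
    rw [mul_assoc]

theorem Sc_step {p : ℕ} [Fact p.Prime] [CharP F p] [Finite F]
    (S : Subgroup (symplecticGroup (Fin n) F)) (hS : IsPGroup p S) (h : SU n F ≤ S)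
    (k : ℕ)
    (ih : ∀ A ∈ S, ∀ y : Fin n ⊕ Fin n, ord y < k →
      A.1 y y = 1 ∧ ∀ x, ord y < ord x → A.1 x y = 0)
    (A : symplecticGroup (Fin n) F) (hA : A ∈ S) (y : Fin n ⊕ Fin n) (hy : ord y = k) :
    A.1 y y = 1 ∧ ∀ x, ord y < ord x → A.1 x y = 0 := by
  have h0 : ∀ A ∈ S, ∀ x y : Fin n ⊕ Fin n, ord y < k → k ≤ ord x → A.1 x y = 0 :=
    fun A hA x y h1 h2 => (ih A hA y h1).2 x (by omega)
  let _ : MulAction S ({x : Fin n ⊕ Fin n // k ≤ ord x} → F) := Sc_act S k h0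
  have hc : p ∣ Nat.card ({x : Fin n ⊕ Fin n // k ≤ ord x} → F) := by
    have : Fintype F := Fintype.ofFinite F
    rw [Nat.card_fun]
    have h1 : p ∣ Nat.card F := by
      rw [Nat.card_eq_fintype_card]
      obtain ⟨m, hm, hc⟩ := FiniteField.card F p
      rw [hc]
      exact dvd_pow_self p m.ne_zero
    refine dvd_pow h1 ?_
    have : Nonempty {x : Fin n ⊕ Fin n // k ≤ ord x} := ⟨⟨y, hy.ge⟩⟩
    exact Nat.card_pos.ne'
  obtain ⟨w, hw, hw0⟩ := hS.exists_fixed_point_of_prime_dvd_card_of_fixed_point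
    ({x : Fin n ⊕ Fin n // k ≤ ord x} → F) hc (a := 0) (by
      intro A
      funext x
      change ∑ y : {x : Fin n ⊕ Fin n // k ≤ ord x}, A.1.1 x.1 y.1 * (0 : F) = 0
      simp)
  have hfix : ∀ B ∈ S, ∀ x : {x : Fin n ⊕ Fin n // k ≤ ord x},
      ∑ y : {x : Fin n ⊕ Fin n // k ≤ ord x}, B.1 x.1 y.1 * w y = w x :=
    fun B hB x => congrFun (hw ⟨B, hB⟩) x
  have hz : ∀ z : {x : Fin n ⊕ Fin n // k ≤ ord x}, z.1 ≠ y → w z = 0 := by
    intro z hzy
    have hlt : ord y < ord z.1 := by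
      rcases lt_or_eq_of_le z.2 with h1 | h1
      · omega
      · exact absurd (ord_inj (hy.trans h1)).symm hzy
    obtain ⟨B, hB, ε, hε, hv⟩ := exists_el (F := F) hlt
    have h1 := hv fun x => if hx : k ≤ ord x then w ⟨x, hx⟩ else 0
    have h2 : (B.1 *ᵥ fun x => if hx : k ≤ ord x then w ⟨x, hx⟩ else 0) y = w ⟨y, hy.ge⟩ := by
      rw [← hfix B (h hB) ⟨y, hy.ge⟩, mulVec, dotProduct, Sc_sum (k := k)]
      · refine Finset.sum_congr rfl fun x _ => ?_
        rw [dif_pos x.2]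
      · intro x hx
        rw [dif_neg (by omega), mul_zero]
    rw [h2, dif_pos hy.ge, dif_pos z.2] at h1
    have h3 : ε * w z = 0 := by
      have := h1
      rwa [left_eq_add] at this
    exact (mul_eq_zero.1 h3).resolve_left hε
  have hwy : w ⟨y, hy.ge⟩ ≠ 0 := by
    intro h1
    apply hw0
    funext x
    by_cases hx : x.1 = y
    · obtain ⟨x, hx'⟩ := x
      change x = y at hx
      subst hx
      exact h1.symm
    · exact (hz x hx).symm
  have hcol : ∀ x : {x : Fin n ⊕ Fin n // k ≤ ord x}, A.1 x.1 y * w ⟨y, hy.ge⟩ = w x := by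
    intro x
    rw [← hfix A hA x, Finset.sum_eq_single ⟨y, hy.ge⟩]
    · intro z _ hzy
      rw [hz z (fun h => hzy (Subtype.ext h)), mul_zero]
    · simp
  refine ⟨?_, fun x hx => ?_⟩
  · have h1 := hcol ⟨y, hy.ge⟩
    exact mul_right_cancel₀ hwy (h1.trans (one_mul _).symm)
  · have h1 := hcol ⟨x, by omega⟩
    rw [hz ⟨x, _⟩ (fun h => by
      change x = y at h
      subst h
      omega)] at h1
    exact (mul_eq_zero.1 h1).resolve_right hwy

theorem SU_max {p : ℕ} [Fact p.Prime] [CharP F p] [Finite F]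
    (S : Subgroup (symplecticGroup (Fin n) F)) (hS : IsPGroup p S) (h : SU n F ≤ S) :
    S = SU n F := by
  have key : ∀ k : ℕ, k ≤ 2 * n → ∀ A ∈ S, ∀ y : Fin n ⊕ Fin n, ord y < k →
      A.1 y y = 1 ∧ ∀ x, ord y < ord x → A.1 x y = 0 := by
    intro k
    induction k with
    | zero =>
      intro _ A _ y hy
      omega
    | succ k ih =>
      intro hk A hA y hy
      rcases Nat.lt_succ_iff_lt_or_eq.1 hy with h1 | h1
      · exact ih (by omega) A hA y h1
      · exact Sc_step S hS h k (ih (by omega)) A hA y h1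
  refine le_antisymm (fun A hA => ?_) h
  rw [mem_SU]
  exact ⟨fun x y hxy => (key (2 * n) le_rfl A hA y (ord_lt y)).2 x hxy,
    fun x => (key (2 * n) le_rfl A hA x (ord_lt x)).1⟩

end Pool.Agent.H.MP_7d3ffc_al.SP
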