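import Pool.Agent.H.MP_7d3ffc_al.SP.Sa

/-!
# Module SP/Sc0: elements of `SU` which move a coordinate

`w = inl i, z = inl j` (`i < j`): `A = dl (tr h.ne 1)`; `w = inl i, z = inr l`:
`A = bt (single i l 1 + single l i 1)` for `i ≠ l`, `bt (single i i 1)` for `i = l`; `w = inr i, z = inr l`
(`l < i`): `A = dl (tr h.ne 1)` with `h : l < i`, `ε = -1` (the lower right block is
`(transvection l i (-1))ᵀ`). The case `w = inr, z = inl` contradicts `ord w < ord z`.
-/

namespace Pool.Agent.H.MP_7d3ffc_al.SP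

open Matrix

variable {n : ℕ} {F : Type*} [Field F]

private theorem Sc0_sg (i j : Fin n) (c : F) (u : Fin n → F) (x : Fin n) :
    (single i j c *ᵥ u) x = if x = i then c * u j else 0 := by
  show ∑ y, single i j c x y * u y = _
  split_ifs with h
  · subst h
    rw [Finset.sum_eq_single j]
    · rw [single_apply_same]
    · intro y _ hy
      rw [single_apply_of_ne, zero_mul]
      rintro ⟨-, h⟩
      exact hy h.symm
    · intro h
      exact absurd (Finset.mem_univ j) h
  · refine Finset.sum_eq_zero fun y _ => ?_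
    rw [single_apply_of_ne, zero_mul]
    rintro ⟨h1, -⟩
    exact h h1.symm

private theorem Sc0_bl (a b c d : Matrix (Fin n) (Fin n) F) (v : Fin n ⊕ Fin n → F) :
    (∀ i, (fromBlocks a b c d *ᵥ v) (Sum.inl i) =
      (a *ᵥ (fun j => v (Sum.inl j))) i + (b *ᵥ (fun j => v (Sum.inr j))) i) ∧
    (∀ i, (fromBlocks a b c d *ᵥ v) (Sum.inr i) =
      (c *ᵥ (fun j => v (Sum.inl j))) i + (d *ᵥ (fun j => v (Sum.inr j))) i) := by
  rw [fromBlocks_mulVec]
  exact ⟨fun i => rfl, fun i => rfl⟩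

theorem exists_el {w z : Fin n ⊕ Fin n} (h : ord w < ord z) :
    ∃ A ∈ SU n F, ∃ ε : F, ε ≠ 0 ∧ ∀ v : Fin n ⊕ Fin n → F,
      (A.1 *ᵥ v) w = v w + ε * v z := by
  rcases w with i | i <;> rcases z with l | l <;> simp only [ord_inl, ord_inr] at h
  · have hil : i < l := h
    refine ⟨dl (tr hil.ne 1), tr_mem hil 1, 1, one_ne_zero, fun v => ?_⟩
    rw [dl_val, (Sc0_bl _ _ _ _ v).1 i]
    change (transvection i l 1 *ᵥ _) i + _ = _
    rw [transvection, add_mulVec, one_mulVec, zero_mulVec, Pi.add_apply, Sc0_sg, if_pos rfl]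
    simp
  · by_cases hil : i = l
    · subst hil
      refine ⟨bt (single i i 1) (single_symm i 1), bt_mem _ _, 1, one_ne_zero, fun v => ?_⟩
      rw [bt_val, (Sc0_bl _ _ _ _ v).1 i, one_mulVec, Sc0_sg, if_pos rfl]
    · refine ⟨bt (single i l 1 + single l i 1) (pair_symm i l 1), bt_mem _ _, 1, one_ne_zero,
        fun v => ?_⟩
      rw [bt_val, (Sc0_bl _ _ _ _ v).1 i, one_mulVec, add_mulVec, Pi.add_apply, Sc0_sg, Sc0_sg,
        if_pos rfl, if_neg hil, add_zero]
  · omega
  · have hli : l < i := by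
      rw [Fin.lt_def]
      omega
    refine ⟨dl (tr hli.ne 1), tr_mem hli 1, -1, neg_ne_zero.2 one_ne_zero, fun v => ?_⟩
    rw [dl_val, (Sc0_bl _ _ _ _ v).2 i]
    change _ + ((transvection l i (-1))ᵀ *ᵥ _) i = _
    rw [transvection, transpose_add, transpose_one, transpose_single, add_mulVec, one_mulVec,
      zero_mulVec, Pi.add_apply, Sc0_sg, if_pos rfl]
    simp

end Pool.Agent.H.MP_7d3ffc_al.SP
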