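import Pool.Agent.H.MP_7d3ffc_al.SP.Sa
import Pool.Agent.H.MP_7d3ffc_al.DC.Gen

/-!
# Module SP/Se: generators of `SU`

Let `A ∈ SU n F`. Its lower left block is `0`, its upper left block `a` is unitriangular
(`UT_ind` in module DC/Gen: it is a product of the `el`, so `dl` of it is a product of the `dl (tr h.ne c)`,
`μ = 1` there), and `dl a⁻¹ * A = bt s` with `s = a⁻¹ b` (the lower right block is `1` by
`SymplecticGroup.fromBlocks_mem_iff`).
-/

namespace Pool.Agent.H.MP_7d3ffc_al.SP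

open Matrix

variable {n : ℕ} {F : Type*} [Field F]

variable (n F) in
/-- the unitriangular matrices in the symplectic group -/
private def Se_em : DC.UT n F →* symplecticGroup (Fin n) F :=
  dl.comp (Matrix.SpecialLinearGroup.toGL.comp (DC.UT n F).subtype)

private theorem Se_el {i j : Fin n} (h : i < j) (c : F) :
    Se_em n F (DC.el h c) = dl (tr h.ne c) := by
  refine congrArg dl (Units.ext ?_)
  rfl

private theorem Se_ut (μ : SU n F →* ℂˣ)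
    (h0 : ∀ (i j : Fin n) (h : i < j) (c : F), μ ⟨dl (tr h.ne c), tr_mem h c⟩ = 1)
    (u : DC.UT n F) : ∃ h : Se_em n F u ∈ SU n F, μ ⟨Se_em n F u, h⟩ = 1 := by
  refine DC.UT_ind (fun u => ∃ h : Se_em n F u ∈ SU n F, μ ⟨Se_em n F u, h⟩ = 1) ?_ ?_ u
  · refine ⟨by rw [map_one]; exact one_mem _, ?_⟩
    have h1 : (⟨Se_em n F 1, by rw [map_one]; exact one_mem _⟩ : SU n F) = 1 :=
      Subtype.ext (map_one _)
    rw [h1, map_one]
  · rintro i j h c u ⟨hu, hm⟩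
    have h1 : Se_em n F (DC.el h c * u) = dl (tr h.ne c) * Se_em n F u := by
      rw [map_mul, Se_el]
    have h2 : Se_em n F (DC.el h c * u) ∈ SU n F := by
      rw [h1]
      exact mul_mem (tr_mem h c) hu
    refine ⟨h2, ?_⟩
    have h3 : (⟨Se_em n F (DC.el h c * u), h2⟩ : SU n F) =
        ⟨dl (tr h.ne c), tr_mem h c⟩ * ⟨Se_em n F u, hu⟩ := Subtype.ext h1
    rw [h3, map_mul, h0 i j h c, hm, one_mul]

theorem SU_gen (μ : SU n F →* ℂˣ)
    (h0 : ∀ (i j : Fin n) (h : i < j) (c : F), μ ⟨dl (tr h.ne c), tr_mem h c⟩ = 1)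
    (hb : ∀ (s : Matrix (Fin n) (Fin n) F) (hs : sᵀ = s), μ ⟨bt s hs, bt_mem s hs⟩ = 1) :
    μ = 1 := by
  refine MonoidHom.ext fun A => ?_
  have hA : Uni A.1.1 := A.2
  obtain ⟨a, ha⟩ : ∃ a, a = A.1.1.toBlocks₁₁ := ⟨_, rfl⟩
  obtain ⟨b, hb'⟩ : ∃ b, b = A.1.1.toBlocks₁₂ := ⟨_, rfl⟩
  obtain ⟨d, hd⟩ : ∃ d, d = A.1.1.toBlocks₂₂ := ⟨_, rfl⟩
  have hc : A.1.1.toBlocks₂₁ = 0 := by
    ext i j
    exact hA.1 (Sum.inr i) (Sum.inl j) (by simp; omega)
  have e : A.1.1 = fromBlocks a b 0 d := by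
    rw [ha, hb', hd, ← hc, fromBlocks_toBlocks]
  have hsp : aᵀ * (0 : Matrix (Fin n) (Fin n) F) = (0 : Matrix (Fin n) (Fin n) F)ᵀ * a ∧
      bᵀ * d = dᵀ * b ∧ aᵀ * d - (0 : Matrix (Fin n) (Fin n) F)ᵀ * b = 1 := by
    rw [← SymplecticGroup.fromBlocks_mem_iff, ← e]
    exact A.1.2
  have had : aᵀ * d = 1 := by
    have h1 := hsp.2.2
    rwa [transpose_zero, Matrix.zero_mul, sub_zero] at h1
  have hlow : ∀ i j : Fin n, j < i → a i j = 0 := fun i j h => by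
    rw [ha]
    exact hA.1 (Sum.inl i) (Sum.inl j) (by simpa using h)
  have hdi : ∀ i : Fin n, a i i = 1 := fun i => by
    rw [ha]
    exact hA.2 (Sum.inl i)
  have hdet : a.det = 1 := by
    rw [Matrix.det_of_isUpperTriangular (DC.Defs_tri_iff.1 hlow)]
    exact Finset.prod_eq_one fun i _ => hdi i
  obtain ⟨h1, h2⟩ := Se_ut μ h0 ⟨⟨a, hdet⟩, hlow, hdi⟩
  obtain ⟨g, hg⟩ : ∃ g : GL (Fin n) F, g = Matrix.SpecialLinearGroup.toGL ⟨a, hdet⟩ := ⟨_, rfl⟩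
  have hga : g.1 = a := by
    rw [hg]
    rfl
  have h1' : dl g ∈ SU n F := by
    rw [hg]
    exact h1
  have h2' : μ ⟨dl g, h1'⟩ = 1 := by
    subst hg
    exact h2
  have hgi : (g⁻¹).1 * a = 1 := by
    rw [← hga]
    exact congrArg Units.val (inv_mul_cancel g)
  have hgi' : a * (g⁻¹).1 = 1 := by
    rw [← hga]
    exact congrArg Units.val (mul_inv_cancel g)
  have hdg : d = ((g⁻¹).1)ᵀ := by
    have h3 : ((g⁻¹).1)ᵀ * aᵀ = 1 := by rw [← transpose_mul, hgi', transpose_one]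
    calc d = (((g⁻¹).1)ᵀ * aᵀ) * d := by rw [h3, Matrix.one_mul]
      _ = ((g⁻¹).1)ᵀ := by rw [Matrix.mul_assoc, had, Matrix.mul_one]
  have hs : ((g⁻¹).1 * b)ᵀ = (g⁻¹).1 * b := by
    have h3 := hsp.2.1
    rw [hdg, transpose_transpose] at h3
    rw [transpose_mul, h3]
  have e2 : A.1 = dl g * bt ((g⁻¹).1 * b) hs := by
    apply Subtype.ext
    change A.1.1 = (dl g).1 * (bt ((g⁻¹).1 * b) hs).1
    rw [e, dl_val, bt_val, fromBlocks_multiply, hga, ← hdg]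
    simp only [Matrix.mul_one, Matrix.mul_zero, Matrix.zero_mul, add_zero, zero_add]
    rw [← Matrix.mul_assoc, hgi', Matrix.one_mul]
  have e3 : A = (⟨dl g, h1'⟩ : SU n F) * ⟨bt ((g⁻¹).1 * b) hs, bt_mem _ hs⟩ := Subtype.ext e2
  rw [e3, map_mul, h2', hb, one_mul, MonoidHom.one_apply]

end Pool.Agent.H.MP_7d3ffc_al.SP
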