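import Pool.Agent.H.MP_7d3ffc_al.SP.Sa

/-!
# Module SP/Se0: characters of `SU` on the symmetric matrices

A symmetric matrix is a sum of matrices `single i i c` and `single i j c + single j i c`
(`i < j`) (`bt_add`; for instance induction over the set of pairs, or over the number of nonzero entries).
-/

namespace Pool.Agent.H.MP_7d3ffc_al.SP

open Matrix

variable {n : ℕ} {F : Type*} [Field F]

/-- the pieces of a symmetric matrix -/
def Se0_E (s : Matrix (Fin n) (Fin n) F) (i j : Fin n) : Matrix (Fin n) (Fin n) F :=
  if i = j then single i i (s i i) else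
    if i < j then single i j (s i j) + single j i (s i j) else 0

theorem Se0_sum (s : Matrix (Fin n) (Fin n) F) (hs : sᵀ = s) :
    ∑ i, ∑ j, Se0_E s i j = s := by
  have hsym : ∀ a b, s a b = s b a := fun a b => by
    conv_lhs => rw [← hs]
    rfl
  ext a b
  rw [Matrix.sum_apply]
  simp_rw [Matrix.sum_apply]
  rcases lt_trichotomy a b with h | h | h
  · rw [Finset.sum_eq_single a, Finset.sum_eq_single b]
    · rw [Se0_E, if_neg h.ne, if_pos h, Matrix.add_apply, single_apply_same,
        single_apply_of_ne, add_zero]
      rintro ⟨rfl, -⟩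
      exact lt_irrefl _ h
    · intro j _ hj
      unfold Se0_E
      split_ifs with h1 h2
      · rw [single_apply_of_ne]
        rintro ⟨-, rfl⟩
        exact lt_irrefl _ h
      · rw [Matrix.add_apply, single_apply_of_ne, single_apply_of_ne, add_zero]
        · rintro ⟨rfl, rfl⟩
          exact lt_irrefl _ h
        · rintro ⟨-, rfl⟩
          exact hj rfl
      · rfl
    · simp
    · intro i _ hi
      refine Finset.sum_eq_zero fun j _ => ?_
      unfold Se0_E
      split_ifs with h1 h2
      · rw [single_apply_of_ne]
        rintro ⟨rfl, -⟩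
        exact hi rfl
      · rw [Matrix.add_apply, single_apply_of_ne, single_apply_of_ne, add_zero]
        · rintro ⟨rfl, rfl⟩
          exact lt_asymm h h2
        · rintro ⟨rfl, -⟩
          exact hi rfl
      · rfl
    · simp
  · subst h
    rw [Finset.sum_eq_single a, Finset.sum_eq_single a]
    · rw [Se0_E, if_pos rfl, single_apply_same]
    · intro j _ hj
      unfold Se0_E
      split_ifs with h1 h2
      · exact absurd h1.symm hj
      · rw [Matrix.add_apply, single_apply_of_ne, single_apply_of_ne, add_zero]
        · rintro ⟨rfl, -⟩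
          exact hj rfl
        · rintro ⟨-, rfl⟩
          exact hj rfl
      · rfl
    · simp
    · intro i _ hi
      refine Finset.sum_eq_zero fun j _ => ?_
      unfold Se0_E
      split_ifs with h1 h2
      · rw [single_apply_of_ne]
        rintro ⟨rfl, -⟩
        exact hi rfl
      · rw [Matrix.add_apply, single_apply_of_ne, single_apply_of_ne, add_zero]
        · rintro ⟨-, rfl⟩
          exact hi rfl
        · rintro ⟨rfl, -⟩
          exact hi rfl
      · rfl
    · simp
  · rw [Finset.sum_eq_single b, Finset.sum_eq_single a]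
    · rw [Se0_E, if_neg h.ne, if_pos h, Matrix.add_apply, single_apply_of_ne,
        single_apply_same, zero_add, hsym]
      rintro ⟨rfl, -⟩
      exact lt_irrefl _ h
    · intro j _ hj
      unfold Se0_E
      split_ifs with h1 h2
      · rw [single_apply_of_ne]
        rintro ⟨rfl, -⟩
        exact lt_irrefl _ h
      · rw [Matrix.add_apply, single_apply_of_ne, single_apply_of_ne, add_zero]
        · rintro ⟨rfl, -⟩
          exact hj rfl
        · rintro ⟨rfl, rfl⟩
          exact lt_irrefl _ h
      · rfl
    · simp
    · intro i _ hi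
      refine Finset.sum_eq_zero fun j _ => ?_
      unfold Se0_E
      split_ifs with h1 h2
      · rw [single_apply_of_ne]
        rintro ⟨-, rfl⟩
        exact hi rfl
      · rw [Matrix.add_apply, single_apply_of_ne, single_apply_of_ne, add_zero]
        · rintro ⟨-, rfl⟩
          exact hi rfl
        · rintro ⟨rfl, rfl⟩
          exact lt_asymm h h2
      · rfl
    · simp

theorem bt_gen (μ : SU n F →* ℂˣ)
    (h1 : ∀ (i : Fin n) (c : F), μ ⟨bt (single i i c) (single_symm i c), bt_mem _ _⟩ = 1)
    (h2 : ∀ (i j : Fin n), i < j → ∀ c : F,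
      μ ⟨bt (single i j c + single j i c) (pair_symm i j c), bt_mem _ _⟩ = 1)
    (s : Matrix (Fin n) (Fin n) F) (hs : sᵀ = s) : μ ⟨bt s hs, bt_mem s hs⟩ = 1 := by
  let P : Matrix (Fin n) (Fin n) F → Prop := fun t => ∃ ht : tᵀ = t, μ ⟨bt t ht, bt_mem t ht⟩ = 1
  have hadd : ∀ a b, P a → P b → P (a + b) := by
    rintro a b ⟨ha, ha'⟩ ⟨hb, hb'⟩
    refine ⟨by rw [transpose_add, ha, hb], ?_⟩
    have h3 : (⟨bt (a + b) (by rw [transpose_add, ha, hb]), bt_mem _ _⟩ : SU n F) =
        ⟨bt a ha, bt_mem a ha⟩ * ⟨bt b hb, bt_mem b hb⟩ := by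
      apply Subtype.ext
      exact bt_add a b ha hb
    rw [h3, map_mul, ha', hb', mul_one]
  have hzero : P 0 := by
    refine ⟨transpose_zero, ?_⟩
    have h3 : (⟨bt 0 transpose_zero, bt_mem _ _⟩ : SU n F) = 1 := by
      apply Subtype.ext
      apply Subtype.ext
      exact fromBlocks_one
    rw [h3, map_one]
  have hE : ∀ i j, P (Se0_E s i j) := by
    intro i j
    unfold Se0_E
    split_ifs with h3 h4
    · exact ⟨_, h1 i _⟩
    · exact ⟨_, h2 i j h4 _⟩
    · exact hzero
  have hP : P s := by
    rw [← Se0_sum s hs]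
    exact Finset.sum_induction _ P hadd hzero fun i _ =>
      Finset.sum_induction _ P hadd hzero fun j _ => hE i j
  exact hP.2

end Pool.Agent.H.MP_7d3ffc_al.SP
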