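import Pool.Agent.H.MP_7d3ffc_al.SP.Sa

/-!
# Module SP/Sf0: conjugation with an elementary matrix of two neighbours

For neighbours `x, y` (`ord y = ord x + 1`) the conjugation with `1 + c E_yx` adds `c` times the row `x` to
the row `y` and subtracts `c` times the column `y` from the column `x`. (A similar proof for `SL_n`: module
DC/Adj, `Adj_mem`; `transvection_mul_apply_same`, `transvection_mul_apply_of_ne`,
`mul_transvection_apply_same`, `mul_transvection_apply_of_ne`.)
-/

namespace Pool.Agent.H.MP_7d3ffc_al.SP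

open Matrix

variable {n : ℕ} {F : Type*} [Field F]

private theorem Sf0_entry (B : Matrix (Fin n ⊕ Fin n) (Fin n ⊕ Fin n) F) {x y : Fin n ⊕ Fin n}
    (h0 : B x y = 0) (c : F) (a b : Fin n ⊕ Fin n) :
    (transvection y x c * B * transvection y x (-c)) a b =
      B a b + (if a = y then c * B x b else 0) - (if b = x then c * B a y else 0) := by
  by_cases hb : b = x
  · subst hb
    rw [mul_transvection_apply_same, if_pos rfl]
    by_cases ha : a = y
    · subst ha
      rw [transvection_mul_apply_same, transvection_mul_apply_same, if_pos rfl, h0]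
      ring
    · rw [transvection_mul_apply_of_ne _ _ _ _ ha, transvection_mul_apply_of_ne _ _ _ _ ha,
        if_neg ha]
      ring
  · rw [mul_transvection_apply_of_ne _ _ _ _ hb, if_neg hb]
    by_cases ha : a = y
    · subst ha
      rw [transvection_mul_apply_same, if_pos rfl]
      ring
    · rw [transvection_mul_apply_of_ne _ _ _ _ ha, if_neg ha]
      ring

theorem Uni_conj {B : Matrix (Fin n ⊕ Fin n) (Fin n ⊕ Fin n) F} (hB : Uni B)
    {x y : Fin n ⊕ Fin n} (h : ord y = ord x + 1) (h0 : B x y = 0) (c : F) :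
    Uni (transvection y x c * B * transvection y x (-c)) ∧
      (transvection y x c * B * transvection y x (-c)) x y = 0 := by
  have hxy : x ≠ y := by
    rintro rfl
    omega
  refine ⟨⟨fun a b hab => ?_, fun a => ?_⟩, ?_⟩
  · rw [Sf0_entry B h0, hB.1 a b hab, zero_add]
    by_cases h1 : a = y
    · subst h1
      by_cases h2 : b = x
      · rw [if_pos rfl, if_pos h2, h2, hB.2, hB.2, sub_self]
      · have h3 : ord b ≠ ord x := fun h => h2 (ord_inj h)
        rw [if_pos rfl, if_neg h2, hB.1 x b (by omega), mul_zero, sub_zero]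
    · by_cases h2 : b = x
      · subst h2
        have h3 : ord a ≠ ord y := fun h => h1 (ord_inj h)
        rw [if_neg h1, if_pos rfl, hB.1 a y (by omega), mul_zero, sub_zero]
      · rw [if_neg h1, if_neg h2, sub_zero]
  · rw [Sf0_entry B h0, hB.2]
    by_cases h1 : a = y
    · subst h1
      rw [if_pos rfl, if_neg hxy.symm, h0, mul_zero, add_zero, sub_zero]
    · by_cases h2 : a = x
      · subst h2
        rw [if_neg h1, if_pos rfl, h0, mul_zero, add_zero, sub_zero]
      · rw [if_neg h1, if_neg h2, add_zero, sub_zero]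
  · rw [Sf0_entry B h0, h0, if_neg hxy, if_neg hxy.symm, add_zero, sub_zero]

theorem Uni_conj' (B : Matrix (Fin n ⊕ Fin n) (Fin n ⊕ Fin n) F)
    {x y : Fin n ⊕ Fin n} (c : F) {x' y' : Fin n ⊕ Fin n} (h1 : x' ≠ y) (h2 : y' ≠ x) :
    (transvection y x c * B * transvection y x (-c)) x' y' = B x' y' := by
  rw [mul_transvection_apply_of_ne _ _ _ _ h2, transvection_mul_apply_of_ne _ _ _ _ h1]

end Pool.Agent.H.MP_7d3ffc_al.SP
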