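import Pool.Agent.H.MP_7d3ffc_al.SP.Sa

/-!
# Module SP/Sf1: the torus

Use `mem_Kg`; `Q = SU n F`: `SU n F ≤ Kg n F` (`Subgroup.le_normalizer`, `Subgroup.commutator_le_self`) and
the torus: `dl (dg t) * A * (dl (dg t))⁻¹` has the entries `χ_x(t) * A x y * χ_y(t)⁻¹` with `χ_(inl i) = t i`,
`χ_(inr i) = (t i)⁻¹`, so it is unitriangular (both directions of the normalizer: `t` and `t⁻¹`).
-/

namespace Pool.Agent.H.MP_7d3ffc_al.SP

open Matrix

variable {n : ℕ} {F : Type*} [Field F]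

theorem Sf1_comm : ⁅SU n F, SU n F⁆ ≤ SU n F := Subgroup.commutator_le_self _

theorem SU_le_Kg : SU n F ≤ Kg n F := fun _ hg =>
  mem_Kg Sf1_comm le_rfl (Subgroup.le_normalizer hg)

theorem Sf1_val (t : Fin n → Fˣ) : (dl (dg t)).1 =
    diagonal (Sum.elim (fun i => (t i : F)) fun i => (((t i)⁻¹ : Fˣ) : F)) := by
  rw [dl_val]
  change fromBlocks (diagonal fun i => (t i : F)) 0 0
    (diagonal fun i => (((t i)⁻¹ : Fˣ) : F))ᵀ = _
  rw [diagonal_transpose, fromBlocks_diagonal]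

theorem Sf1_inv (t : Fin n → Fˣ) : (dl (dg t))⁻¹ = dl (dg fun i => (t i)⁻¹) := by
  rw [← map_inv]
  congr 1

theorem Sf1_mem (t : Fin n → Fˣ) {A : symplecticGroup (Fin n) F} (hA : A ∈ SU n F) :
    dl (dg t) * A * (dl (dg t))⁻¹ ∈ SU n F := by
  rw [Sf1_inv]
  have key : ∀ x y, (dl (dg t) * A * dl (dg fun i => (t i)⁻¹)).1 x y =
      Sum.elim (fun i => (t i : F)) (fun i => (((t i)⁻¹ : Fˣ) : F)) x * A.1 x y *
      Sum.elim (fun i => (((t i)⁻¹ : Fˣ) : F)) (fun i => ((((t i)⁻¹)⁻¹ : Fˣ) : F)) y := by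
    intro x y
    change ((dl (dg t)).1 * A.1 * (dl (dg fun i => (t i)⁻¹)).1) x y = _
    rw [Sf1_val, Sf1_val, mul_diagonal, diagonal_mul]
  refine ⟨fun x y h => ?_, fun x => ?_⟩
  · rw [key, hA.1 x y h, mul_zero, zero_mul]
  · rw [key, hA.2 x, mul_one]
    rcases x with i | i
    · simp
    · simp

theorem dg_norm (t : Fin n → Fˣ) :
    dl (dg t) ∈ Subgroup.normalizer (SU n F : Set (symplecticGroup (Fin n) F)) := by
  rw [Subgroup.mem_normalizer_iff]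
  intro h
  refine ⟨fun hh => Sf1_mem t hh, fun hh => ?_⟩
  have h1 := Sf1_mem (fun i => (t i)⁻¹) hh
  rw [← Sf1_inv] at h1
  have h2 : (dl (dg t))⁻¹ * (dl (dg t) * h * (dl (dg t))⁻¹) * ((dl (dg t))⁻¹)⁻¹ = h := by group
  rw [h2] at h1
  exact h1

theorem dg_mem (t : Fin n → Fˣ) : dl (dg t) ∈ Kg n F :=
  mem_Kg Sf1_comm le_rfl (dg_norm t)

end Pool.Agent.H.MP_7d3ffc_al.SP
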