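import Pool.Agent.H.MP_7d3ffc_al.SP.Sf0

/-!
# Module SP/Sf2: the negative root elements of neighbours in the general linear block

Use `mem_Kg` with `Q` = the subgroup of the `A ∈ SU n F` with `A x y = 0`, `x = inl i, y = inl j`,
`ord y = ord x + 1` (a subgroup by `Uni_adj`, and it contains the commutators: `A ↦ A x y` is additive on
`SU n F`; `Subgroup.commutator_le`). `h = dl (tr h.ne' c)` is
the product of the commuting matrices `1 + c E_yx` and `1 - c E_x'y'` with `x' = inr i, y' = inr j`,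
`ord x' = ord y' + 1`. `A ∈ Q` has `A x y = 0` and `A y' x' = 0` (`inv_ll`: `(A⁻¹) x y = A y' x'`, and
`A⁻¹ ∈ Q`). So `h * A * h⁻¹ ∈ Q` by `Uni_conj` and `Uni_conj'` (twice; the pairs `(x, y)` and `(y', x')`
are disjoint). Membership in the normalizer: `Subgroup.mem_normalizer_iff`; both directions follow from
`h * A * h⁻¹ ∈ Q` for all `c` (`h⁻¹` belongs to `-c`).
-/

namespace Pool.Agent.H.MP_7d3ffc_al.SP

open Matrix

variable {n : ℕ} {F : Type*} [Field F]

private theorem Sf2_mul {A B : symplecticGroup (Fin n) F} (hA : A ∈ SU n F) (hB : B ∈ SU n F)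
    {x y : Fin n ⊕ Fin n} (h : ord y = ord x + 1) : (A * B).1 x y = A.1 x y + B.1 x y :=
  Uni_adj hA hB h

private theorem Sf2_inv {A : symplecticGroup (Fin n) F} (hA : A ∈ SU n F)
    {x y : Fin n ⊕ Fin n} (h : ord y = ord x + 1) : A.1 x y + (A⁻¹).1 x y = 0 := by
  have hxy : x ≠ y := by
    rintro rfl
    omega
  rw [← Sf2_mul hA (inv_mem hA) h, mul_inv_cancel]
  change (1 : Matrix (Fin n ⊕ Fin n) (Fin n ⊕ Fin n) F) x y = 0
  rw [one_apply_ne hxy]

variable (F) in
/-- the elements of `SU` with entry `0` at two neighbours -/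
private def Sf2_Q {x y : Fin n ⊕ Fin n} (h : ord y = ord x + 1) :
    Subgroup (symplecticGroup (Fin n) F) where
  carrier := {A | A ∈ SU n F ∧ A.1 x y = 0}
  mul_mem' := fun {A B} hA hB => by
    refine ⟨mul_mem hA.1 hB.1, ?_⟩
    rw [Sf2_mul hA.1 hB.1 h, hA.2, hB.2, add_zero]
  one_mem' := by
    refine ⟨one_mem _, ?_⟩
    change (1 : Matrix (Fin n ⊕ Fin n) (Fin n ⊕ Fin n) F) x y = 0
    rw [one_apply_ne]
    rintro rfl
    omega
  inv_mem' := fun {A} hA => by
    refine ⟨inv_mem hA.1, ?_⟩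
    have h1 := Sf2_inv hA.1 h
    rw [hA.2, zero_add] at h1
    exact h1

private theorem Sf2_mem {x y : Fin n ⊕ Fin n} {h : ord y = ord x + 1}
    {A : symplecticGroup (Fin n) F} : A ∈ Sf2_Q F h ↔ A ∈ SU n F ∧ A.1 x y = 0 := Iff.rfl

private theorem Sf2_com {x y : Fin n ⊕ Fin n} (h : ord y = ord x + 1) :
    ⁅SU n F, SU n F⁆ ≤ Sf2_Q F h := by
  rw [Subgroup.commutator_le]
  intro g hg g' hg'
  rw [commutatorElement_def]
  refine ⟨mul_mem (mul_mem (mul_mem hg hg') (inv_mem hg)) (inv_mem hg'), ?_⟩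
  rw [Sf2_mul (mul_mem (mul_mem hg hg') (inv_mem hg)) (inv_mem hg') h,
    Sf2_mul (mul_mem hg hg') (inv_mem hg) h, Sf2_mul hg hg' h]
  linear_combination Sf2_inv hg h + Sf2_inv hg' h

private theorem Sf2_t1 (i j : Fin n) (c : F) : (transvection (Sum.inl i) (Sum.inl j) c :
    Matrix (Fin n ⊕ Fin n) (Fin n ⊕ Fin n) F) = fromBlocks (transvection i j c) 0 0 1 := by
  ext (a | a) (b | b) <;>
    simp [transvection, one_apply, single_apply, Sum.inl_injective.eq_iff]

private theorem Sf2_t2 (i j : Fin n) (c : F) : (transvection (Sum.inr i) (Sum.inr j) c :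
    Matrix (Fin n ⊕ Fin n) (Fin n ⊕ Fin n) F) = fromBlocks 1 0 0 (transvection i j c) := by
  ext (a | a) (b | b) <;>
    simp [transvection, one_apply, single_apply, Sum.inr_injective.eq_iff]

private theorem Sf2_tt (i j : Fin n) (c : F) : (transvection i j c)ᵀ = transvection j i c := by
  rw [transvection, transvection, transpose_add, transpose_one, transpose_single]

private theorem Sf2_v {i j : Fin n} (h : j ≠ i) (c : F) : (dl (tr h c)).1 =
    transvection (Sum.inr i) (Sum.inr j) (-c) * transvection (Sum.inl j) (Sum.inl i) c := by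
  rw [dl_val, Sf2_t1, Sf2_t2, fromBlocks_multiply]
  change fromBlocks (transvection j i c) 0 0 (transvection j i (-c))ᵀ = _
  rw [Sf2_tt]
  simp

private theorem Sf2_v' {i j : Fin n} (h : j ≠ i) (c : F) : (dl (tr h c)).1 =
    transvection (Sum.inl j) (Sum.inl i) c * transvection (Sum.inr i) (Sum.inr j) (-c) := by
  rw [dl_val, Sf2_t1, Sf2_t2, fromBlocks_multiply]
  change fromBlocks (transvection j i c) 0 0 (transvection j i (-c))ᵀ = _
  rw [Sf2_tt]
  simp

private theorem Sf2_neg {i j : Fin n} (h : j ≠ i) (c : F) : (dl (tr h c))⁻¹ = dl (tr h (-c)) := by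
  rw [← map_inv]
  exact congrArg dl (Units.ext rfl)

private theorem Sf2_conj {i j : Fin n} (h : i < j) (hx : ord (Sum.inl j : Fin n ⊕ Fin n) =
    ord (Sum.inl i : Fin n ⊕ Fin n) + 1) (hy : ord (Sum.inr i : Fin n ⊕ Fin n) =
    ord (Sum.inr j : Fin n ⊕ Fin n) + 1) (c : F) {A : symplecticGroup (Fin n) F}
    (hA : A ∈ Sf2_Q F hx) : dl (tr h.ne' c) * A * (dl (tr h.ne' c))⁻¹ ∈ Sf2_Q F hx := by
  obtain ⟨h1, h2⟩ := Uni_conj (show Uni A.1 from hA.1) hx hA.2 c
  have h3 := Uni_conj' A.1 (x := Sum.inl i) (y := Sum.inl j) c (x' := Sum.inr j)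
    (y' := Sum.inr i) (by simp) (by simp)
  have h4 : A.1 (Sum.inr j) (Sum.inr i) = 0 := by
    rw [← inv_ll]
    exact (inv_mem hA).2
  rw [h4] at h3
  obtain ⟨h5, -⟩ := Uni_conj h1 hy h3 (-c)
  have h6 := Uni_conj' (transvection (Sum.inl j) (Sum.inl i) c * A.1 *
    transvection (Sum.inl j) (Sum.inl i) (-c)) (x := Sum.inr j) (y := Sum.inr i) (-c)
    (x' := Sum.inl i) (y' := Sum.inl j) (by simp) (by simp)
  have e : (dl (tr h.ne' c) * A * (dl (tr h.ne' c))⁻¹).1 =
      transvection (Sum.inr i) (Sum.inr j) (-c) * (transvection (Sum.inl j) (Sum.inl i) c * A.1 *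
        transvection (Sum.inl j) (Sum.inl i) (-c)) *
        transvection (Sum.inr i) (Sum.inr j) (- -c) := by
    rw [Sf2_neg]
    change (dl (tr h.ne' c)).1 * A.1 * (dl (tr h.ne' (-c))).1 = _
    rw [Sf2_v, Sf2_v']
    simp only [Matrix.mul_assoc]
  refine ⟨?_, ?_⟩
  · rw [mem_SU, e]
    exact h5
  · rw [e, h6, h2]

theorem tr_low {i j : Fin n} (h : i < j) (hs : (j : ℕ) = i + 1) (c : F) :
    dl (tr h.ne' c) ∈ Kg n F := by
  have hx : ord (Sum.inl j : Fin n ⊕ Fin n) = ord (Sum.inl i : Fin n ⊕ Fin n) + 1 := hs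
  have hy : ord (Sum.inr i : Fin n ⊕ Fin n) = ord (Sum.inr j : Fin n ⊕ Fin n) + 1 := by
    rw [ord_inr, ord_inr]
    omega
  refine mem_Kg (Sf2_com hx) (fun A hA => hA.1) ?_
  rw [Subgroup.mem_normalizer_iff]
  intro A
  refine ⟨fun hA => Sf2_conj h hx hy c hA, fun hA => ?_⟩
  have h1 := Sf2_conj h hx hy (-c) hA
  rw [← Sf2_neg, inv_inv] at h1
  have e : (dl (tr h.ne' c))⁻¹ * (dl (tr h.ne' c) * A * (dl (tr h.ne' c))⁻¹) *
      dl (tr h.ne' c) = A := by group
  rwa [e] at h1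

end Pool.Agent.H.MP_7d3ffc_al.SP
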