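import Pool.Agent.H.MP_7d3ffc_al.SP.Sf0

/-!
# Module SP/Sf3: the negative long root elements

Use `mem_Kg` with `Q` = the subgroup of the `A ∈ SU n F` with `A x y = 0`, `x = inl l, y = inr l`,
`ord y = ord x + 1` (a subgroup by `Uni_adj`, and it contains the commutators: `A ↦ A x y` is additive on
`SU n F`; `Subgroup.commutator_le`). `h = gm (single l l c) = 1 + c E_yx`. So `h * A * h⁻¹ ∈ Q` by
`Uni_conj`. Membership in the normalizer: `Subgroup.mem_normalizer_iff`; both directions follow from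
`h * A * h⁻¹ ∈ Q` for all `c` (`h⁻¹` belongs to `-c`).
-/

namespace Pool.Agent.H.MP_7d3ffc_al.SP

open Matrix

variable {n : ℕ} {F : Type*} [Field F]

/-- the members of `SU` with zero entry at two neighbours `inl l`, `inr l` -/
private def Sf3_Q (l : Fin n) (hl : (l : ℕ) + 1 = n) : Subgroup (symplecticGroup (Fin n) F) where
  carrier := {A | A ∈ SU n F ∧ A.1 (Sum.inl l) (Sum.inr l) = 0}
  mul_mem' := fun {A B} hA hB => ⟨mul_mem hA.1 hB.1, by
    change (A.1 * B.1) (Sum.inl l) (Sum.inr l) = 0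
    rw [Uni_adj hA.1 hB.1 (by simp only [ord_inl, ord_inr]; omega), hA.2, hB.2, add_zero]⟩
  one_mem' := ⟨one_mem _, by
    change (1 : Matrix (Fin n ⊕ Fin n) (Fin n ⊕ Fin n) F) (Sum.inl l) (Sum.inr l) = 0
    exact one_apply_ne (by simp)⟩
  inv_mem' := fun {A} hA => ⟨inv_mem hA.1, by
    rw [inv_lr, hA.2, neg_zero]⟩

private theorem Sf3_mem {l : Fin n} {hl : (l : ℕ) + 1 = n} {A : symplecticGroup (Fin n) F} :
    A ∈ Sf3_Q l hl ↔ A ∈ SU n F ∧ A.1 (Sum.inl l) (Sum.inr l) = 0 := Iff.rfl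

private theorem Sf3_com (l : Fin n) (hl : (l : ℕ) + 1 = n) : ⁅SU n F, SU n F⁆ ≤ Sf3_Q l hl := by
  rw [Subgroup.commutator_le]
  intro A hA B hB
  have h1 : A * B ∈ SU n F := mul_mem hA hB
  have h2 : A * B * A⁻¹ ∈ SU n F := mul_mem h1 (inv_mem hA)
  have hord : ord (Sum.inr l : Fin n ⊕ Fin n) = ord (Sum.inl l : Fin n ⊕ Fin n) + 1 := by
    simp only [ord_inl, ord_inr]
    omega
  rw [Sf3_mem, commutatorElement_def]
  refine ⟨mul_mem h2 (inv_mem hB), ?_⟩
  have e1 : (A * B * A⁻¹ * B⁻¹).1 (Sum.inl l) (Sum.inr l) =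
      (A * B * A⁻¹).1 (Sum.inl l) (Sum.inr l) + (B⁻¹).1 (Sum.inl l) (Sum.inr l) :=
    Uni_adj h2 (inv_mem hB) hord
  have e2 : (A * B * A⁻¹).1 (Sum.inl l) (Sum.inr l) =
      (A * B).1 (Sum.inl l) (Sum.inr l) + (A⁻¹).1 (Sum.inl l) (Sum.inr l) :=
    Uni_adj h1 (inv_mem hA) hord
  have e3 : (A * B).1 (Sum.inl l) (Sum.inr l) =
      A.1 (Sum.inl l) (Sum.inr l) + B.1 (Sum.inl l) (Sum.inr l) := Uni_adj hA hB hord
  rw [e1, e2, e3, inv_lr, inv_lr]
  ring

private theorem Sf3_val (l : Fin n) (c : F) : (gm (single l l c) (single_symm l c)).1 =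
    transvection (Sum.inr l : Fin n ⊕ Fin n) (Sum.inl l) c := by
  rw [gm_val, transvection]
  ext (i | i) (j | j)
  · simp [one_apply]
  · simp
  · simp [single_apply]
  · simp [one_apply]

private theorem Sf3_inv (l : Fin n) (c : F) : (gm (single l l c) (single_symm l c))⁻¹ =
    gm (single l l (-c)) (single_symm l (-c)) := by
  apply inv_eq_of_mul_eq_one_right
  apply Subtype.ext
  change fromBlocks 1 0 (single l l c) 1 * fromBlocks 1 0 (single l l (-c)) 1 =
    (1 : Matrix (Fin n ⊕ Fin n) (Fin n ⊕ Fin n) F)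
  simp [fromBlocks_multiply, ← single_add]

private theorem Sf3_key {l : Fin n} (hl : (l : ℕ) + 1 = n) (c : F)
    (A : symplecticGroup (Fin n) F) (hA : A ∈ Sf3_Q l hl) :
    gm (single l l c) (single_symm l c) * A * (gm (single l l c) (single_symm l c))⁻¹ ∈
      Sf3_Q l hl := by
  have hord : ord (Sum.inr l : Fin n ⊕ Fin n) = ord (Sum.inl l : Fin n ⊕ Fin n) + 1 := by
    simp only [ord_inl, ord_inr]
    omega
  have h := Uni_conj hA.1 hord hA.2 c
  have e : (gm (single l l c) (single_symm l c) * A * (gm (single l l c) (single_symm l c))⁻¹).1 =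
      transvection (Sum.inr l : Fin n ⊕ Fin n) (Sum.inl l) c * A.1 *
        transvection (Sum.inr l : Fin n ⊕ Fin n) (Sum.inl l) (-c) := by
    rw [Sf3_inv]
    change (gm (single l l c) (single_symm l c)).1 * A.1 *
      (gm (single l l (-c)) (single_symm l (-c))).1 = _
    rw [Sf3_val, Sf3_val]
  rw [Sf3_mem, mem_SU, e]
  exact h

theorem gm_low {l : Fin n} (hl : (l : ℕ) + 1 = n) (c : F) :
    gm (single l l c) (single_symm l c) ∈ Kg n F := by
  refine mem_Kg (Sf3_com l hl) (fun A hA => hA.1) ?_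
  rw [Subgroup.mem_normalizer_iff]
  intro A
  refine ⟨Sf3_key hl c A, fun hA => ?_⟩
  have h := Sf3_key hl (-c) _ hA
  rw [← Sf3_inv, inv_inv] at h
  have e : (gm (single l l c) (single_symm l c))⁻¹ *
      (gm (single l l c) (single_symm l c) * A * (gm (single l l c) (single_symm l c))⁻¹) *
        gm (single l l c) (single_symm l c) = A := by group
  rw [e] at h
  exact h

end Pool.Agent.H.MP_7d3ffc_al.SP
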