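import Pool.Agent.H.MP_7d3ffc_al.SP.Sa

/-!
# Module SP/Sg: the block diagonal matrices in `K`

Every invertible matrix is a product of transvections, a diagonal matrix and transvections
(`Matrix.Pivot.exists_list_transvec_mul_diagonal_mul_list_transvec`); the diagonal entries are not zero.
-/

namespace Pool.Agent.H.MP_7d3ffc_al.SP

open Matrix

variable {n : ℕ} {F : Type*} [Field F]

theorem dl_all (K : Subgroup (symplecticGroup (Fin n) F)) (hT : ∀ t, dl (dg t) ∈ K)
    (hA : ∀ (i j : Fin n) (h : i ≠ j) (c : F), dl (tr h c) ∈ K) (g : GL (Fin n) F) :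
    dl g ∈ K := by
  obtain ⟨g', h1, h2⟩ := diagonal_transvection_induction_of_det_ne_zero
    (fun M : Matrix (Fin n) (Fin n) F => ∃ g : GL (Fin n) F, g.1 = M ∧ dl g ∈ K) g.1 (by
      intro h
      have h1 : g.1.det * (g⁻¹).1.det = 1 := by
        rw [← det_mul, Units.mul_inv, det_one]
      rw [h, zero_mul] at h1
      exact zero_ne_one h1) (by
      intro D hD
      rw [det_diagonal, Finset.prod_ne_zero_iff] at hD
      exact ⟨dg fun i => Units.mk0 (D i) (hD i (Finset.mem_univ i)), rfl, hT _⟩) (by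
      intro t
      exact ⟨tr t.hij t.c, rfl, hA t.i t.j t.hij t.c⟩) (by
      rintro A B - - ⟨a, rfl, ha⟩ ⟨b, rfl, hb⟩
      refine ⟨a * b, rfl, ?_⟩
      rw [map_mul]
      exact mul_mem ha hb)
  rw [← Units.ext h1]
  exact h2

end Pool.Agent.H.MP_7d3ffc_al.SP
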