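import Pool.Agent.H.MP_7d3ffc_al.SP.Sa

/-!
# Module SP/Sg0: all elementary matrices in `K`

For `i < j` it is `hU`; for `j < i` induction on `i - j` with the commutator formula
`[1 + a E_ik, 1 + b E_kj] = 1 + a b E_ij` for different `i, k, j` (`dl` is a homomorphism; compare
`el_comm` in module DC/Gen).
-/

namespace Pool.Agent.H.MP_7d3ffc_al.SP

open Matrix

variable {n : ℕ} {F : Type*} [Field F]

private theorem Sg0_ring {R : Type*} [Ring R] {X Y : R} (hXX : X * X = 0) (hYY : Y * Y = 0)
    (hYX : Y * X = 0) : (1 + X) * (1 + Y) * (1 + -X) * (1 + -Y) = 1 + X * Y := by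
  have h1 : X * Y * X = 0 := by rw [mul_assoc, hYX, mul_zero]
  have h2 : X * Y * Y = 0 := by rw [mul_assoc, hYY, mul_zero]
  simp only [mul_add, add_mul, one_mul, mul_one, mul_neg, neg_mul, neg_neg, neg_zero, zero_mul,
    mul_zero, hXX, hYY, hYX, h1, h2]
  abel

theorem Sg0_comm {i k j : Fin n} (hik : i ≠ k) (hkj : k ≠ j) (hij : i ≠ j) (a b : F) :
    tr hik a * tr hkj b * tr hik (-a) * tr hkj (-b) = tr hij (a * b) := by
  refine Units.ext ?_
  have hn : ∀ (r s : Fin n) (c : F), Matrix.single r s (-c) = -Matrix.single r s c := by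
    intro r s c
    ext x y
    rw [Matrix.neg_apply]
    by_cases h : r = x ∧ s = y
    · rw [← h.1, ← h.2, Matrix.single_apply_same, Matrix.single_apply_same]
    · rw [Matrix.single_apply_of_ne _ _ _ _ _ h, Matrix.single_apply_of_ne _ _ _ _ _ h, neg_zero]
  show Matrix.transvection i k a * Matrix.transvection k j b * Matrix.transvection i k (-a) *
    Matrix.transvection k j (-b) = Matrix.transvection i j (a * b)
  unfold Matrix.transvection
  rw [hn, hn, Sg0_ring (Matrix.single_mul_single_of_ne _ _ _ _ hik.symm _)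
    (Matrix.single_mul_single_of_ne _ _ _ _ hkj.symm _)
    (Matrix.single_mul_single_of_ne _ _ _ _ hij.symm _), Matrix.single_mul_single_same]

theorem tr_all (K : Subgroup (symplecticGroup (Fin n) F))
    (hU : ∀ (i j : Fin n) (h : i < j) (c : F), dl (tr h.ne c) ∈ K)
    (hL : ∀ (i j : Fin n) (h : i < j), (j : ℕ) = i + 1 → ∀ c : F, dl (tr h.ne' c) ∈ K)
    (i j : Fin n) (h : i ≠ j) (c : F) : dl (tr h c) ∈ K := by
  rcases lt_or_gt_of_ne h with h1 | h1
  · exact hU i j h1 c
  · have key : ∀ (d : ℕ) (i j : Fin n) (h : j < i) (_ : (i : ℕ) = j + 1 + d) (c : F),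
        dl (tr h.ne' c) ∈ K := by
      intro d
      induction d with
      | zero =>
        intro i j h hd c
        exact hL j i h (by omega) c
      | succ d ih =>
        intro i j h hd c
        have hk : (j : ℕ) + 1 < n := by
          have := i.2
          omega
        have h2 : (⟨(j : ℕ) + 1, hk⟩ : Fin n) < i := by
          rw [Fin.lt_def]
          show (j : ℕ) + 1 < i
          omega
        have h3 : j < (⟨(j : ℕ) + 1, hk⟩ : Fin n) := by
          rw [Fin.lt_def]
          show (j : ℕ) < (j : ℕ) + 1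
          omega
        have e1 := Sg0_comm h2.ne' h3.ne' h.ne' c 1
        rw [mul_one] at e1
        rw [← e1, map_mul, map_mul, map_mul]
        have m1 : ∀ c : F, dl (tr h2.ne' c) ∈ K := fun c => ih i _ h2 (by
          show (i : ℕ) = (j : ℕ) + 1 + 1 + d
          omega) c
        have m2 : ∀ c : F, dl (tr h3.ne' c) ∈ K := fun c => hL j _ h3 rfl c
        exact K.mul_mem (K.mul_mem (K.mul_mem (m1 _) (m2 _)) (m1 _)) (m2 _)
    have h2 : (j : ℕ) < i := h1
    exact key ((i : ℕ) - j - 1) i j h1 (by omega) c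

end Pool.Agent.H.MP_7d3ffc_al.SP
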