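import Pool.Agent.H.MP_7d3ffc_al.SP.Sa

/-!
# Module SP/Sh: the matrices `(1 0; s 1)` in `K`

`dl g * gm s * (dl g)⁻¹ = gm (h s hᵀ)` with `h = (g⁻¹)ᵀ` arbitrary invertible. `s = single l l c`:
`h s hᵀ = c • (h e_l) (h e_l)ᵀ`. With a permutation matrix `h` (swap of `i` and `l`) one gets all
`gm (single i i c)`, with `h = 1 + E_ji` (`tr`) applied to `single i i c` one gets
`single i i c + single i j c + single j i c + single j j c`, so `gm (single i j c + single j i c) ∈ K`
(`gm_add`). Every symmetric matrix is a sum of such matrices (induction).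
-/

namespace Pool.Agent.H.MP_7d3ffc_al.SP

open Matrix

variable {n : ℕ} {F : Type*} [Field F]

/-- the symmetric matrices `s` with `gm s` in `K` -/
def Sh_H (K : Subgroup (symplecticGroup (Fin n) F)) : AddSubmonoid (Matrix (Fin n) (Fin n) F) where
  carrier := {s | ∃ hs : sᵀ = s, gm s hs ∈ K}
  add_mem' := by
    rintro s t ⟨hs, h1⟩ ⟨ht, h2⟩
    refine ⟨by rw [transpose_add, hs, ht], ?_⟩
    rw [gm_add s t hs ht]
    exact K.mul_mem h1 h2
  zero_mem' := by
    refine ⟨transpose_zero, ?_⟩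
    have h : gm (0 : Matrix (Fin n) (Fin n) F) transpose_zero = 1 :=
      Subtype.ext (fromBlocks_one)
    rw [h]
    exact K.one_mem

theorem Sh_symm (u : GL (Fin n) F) {s : Matrix (Fin n) (Fin n) F} (hs : sᵀ = s) :
    (u.1ᵀ * s * u.1)ᵀ = u.1ᵀ * s * u.1 := by
  rw [transpose_mul, transpose_mul, transpose_transpose, hs, Matrix.mul_assoc]

theorem Sh_conj (u : GL (Fin n) F) (s : Matrix (Fin n) (Fin n) F) (hs : sᵀ = s) :
    dl u⁻¹ * gm s hs * dl u = gm (u.1ᵀ * s * u.1) (Sh_symm u hs) := by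
  apply Subtype.ext
  change fromBlocks (u⁻¹).1 0 0 ((u⁻¹)⁻¹).1ᵀ * fromBlocks 1 0 s 1 *
    fromBlocks u.1 0 0 (u⁻¹).1ᵀ = fromBlocks 1 0 (u.1ᵀ * s * u.1) 1
  rw [inv_inv, fromBlocks_multiply, fromBlocks_multiply]
  have h1 : (u⁻¹).1 * u.1 = 1 := by
    have h := congrArg Units.val (inv_mul_cancel u)
    exact h
  have h2 : u.1ᵀ * (u⁻¹).1ᵀ = 1 := by
    rw [← transpose_mul, h1, transpose_one]
  simp only [Matrix.mul_zero, Matrix.zero_mul, Matrix.mul_one, add_zero, zero_add,
    h1, h2]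

theorem Sh_mem {K : Subgroup (symplecticGroup (Fin n) F)} (hd : ∀ g, dl g ∈ K) (u : GL (Fin n) F)
    {s : Matrix (Fin n) (Fin n) F} (h : s ∈ Sh_H K) : u.1ᵀ * s * u.1 ∈ Sh_H K := by
  obtain ⟨hs, h1⟩ := h
  refine ⟨Sh_symm u hs, ?_⟩
  rw [← Sh_conj u s hs]
  exact K.mul_mem (K.mul_mem (hd _) h1) (hd _)

/-- the multiples of `v vᵀ` belong to `Sh_H K` -/
def Sh_rk (K : Subgroup (symplecticGroup (Fin n) F)) (v : Fin n → F) : Prop :=
  ∀ c : F, c • vecMulVec v v ∈ Sh_H K

theorem Sh_rk_map {K : Subgroup (symplecticGroup (Fin n) F)} (hd : ∀ g, dl g ∈ K)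
    (u : GL (Fin n) F) {v : Fin n → F} (h : Sh_rk K v) : Sh_rk K (u.1ᵀ *ᵥ v) := by
  intro c
  have h1 := Sh_mem hd u (h c)
  have h2 : u.1ᵀ * (c • vecMulVec v v) * u.1 = c • vecMulVec (u.1ᵀ *ᵥ v) (u.1ᵀ *ᵥ v) := by
    rw [Matrix.mul_smul, Matrix.smul_mul, Matrix.mul_vecMulVec, Matrix.vecMulVec_mul,
      Matrix.mulVec_transpose]
  rwa [h2] at h1

theorem Sh_tr {i j : Fin n} (h : i ≠ j) (c : F) (v : Fin n → F) :
    (tr h c).1ᵀ *ᵥ v = v + (c * v i) • Pi.single j 1 := by
  change (transvection i j c)ᵀ *ᵥ v = _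
  rw [transvection, transpose_add, transpose_one, transpose_single, Matrix.add_mulVec,
    Matrix.one_mulVec]
  congr 1
  ext x
  rw [Matrix.mulVec, dotProduct, Finset.sum_eq_single i]
  · rw [Matrix.single_apply, Pi.smul_apply, Pi.single_apply, smul_eq_mul]
    by_cases hx : j = x
    · subst hx
      simp
    · rw [if_neg (fun h => hx h.1), if_neg (fun h => hx h.symm), zero_mul, mul_zero]
  · intro y _ hy
    rw [Matrix.single_apply, if_neg (fun h => hy h.2.symm), zero_mul]
  · intro h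
    exact absurd (Finset.mem_univ _) h

theorem Sh_single (i j : Fin n) (c : F) :
    single i j c = c • vecMulVec (Pi.single i 1) (Pi.single j 1) := by
  ext x y
  rw [Matrix.single_apply, Matrix.smul_apply, vecMulVec_apply, Pi.single_apply, Pi.single_apply,
    smul_eq_mul]
  by_cases hx : i = x
  · by_cases hy : j = y
    · rw [if_pos ⟨hx, hy⟩, if_pos hx.symm, if_pos hy.symm, mul_one, mul_one]
    · rw [if_neg (fun h => hy h.2), if_neg (fun h : y = j => hy h.symm), mul_zero, mul_zero]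
  · rw [if_neg (fun h => hx h.1), if_neg (fun h : x = i => hx h.symm), zero_mul, mul_zero]

theorem Sh_diag {K : Subgroup (symplecticGroup (Fin n) F)} (hd : ∀ g, dl g ∈ K)
    (hg : ∀ l : Fin n, (l : ℕ) + 1 = n → ∀ c : F, gm (single l l c) (single_symm l c) ∈ K)
    (i : Fin n) : Sh_rk K (Pi.single i 1) := by
  have hn : n - 1 < n := by
    have := i.2
    omega
  have hl : Sh_rk K (Pi.single (⟨n - 1, hn⟩ : Fin n) 1) := by
    intro c
    rw [← Sh_single]
    exact ⟨single_symm _ c, hg ⟨n - 1, hn⟩ (by show n - 1 + 1 = n; omega) c⟩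
  by_cases hi : (⟨n - 1, hn⟩ : Fin n) = i
  · rwa [hi] at hl
  · have h1 := Sh_rk_map hd (tr hi 1) hl
    rw [Sh_tr, Pi.single_eq_same, mul_one, one_smul] at h1
    have h2 := Sh_rk_map hd (tr (Ne.symm hi) (-1)) h1
    rw [Sh_tr, Pi.add_apply, Pi.single_eq_same, Pi.single_eq_of_ne (Ne.symm hi), zero_add, mul_one,
      neg_smul, one_smul, add_neg_cancel_comm] at h2
    exact h2

theorem Sh_pair {K : Subgroup (symplecticGroup (Fin n) F)} (hd : ∀ g, dl g ∈ K)
    (hg : ∀ l : Fin n, (l : ℕ) + 1 = n → ∀ c : F, gm (single l l c) (single_symm l c) ∈ K)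
    {i j : Fin n} (h : i ≠ j) (c : F) : single i j c + single j i c ∈ Sh_H K := by
  have h1 := Sh_rk_map hd (tr h 1) (Sh_diag hd hg i)
  rw [Sh_tr, Pi.single_eq_same, mul_one, one_smul] at h1
  have h2 := (Sh_H K).add_mem ((Sh_H K).add_mem (h1 c) (Sh_diag hd hg i (-c)))
    (Sh_diag hd hg j (-c))
  have h3 : c • vecMulVec (Pi.single i 1 + Pi.single j 1) (Pi.single i 1 + Pi.single j 1) +
      (-c) • vecMulVec (Pi.single i 1) (Pi.single i 1) +
      (-c) • vecMulVec (Pi.single j 1) (Pi.single j 1) =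
      (single i j c + single j i c : Matrix (Fin n) (Fin n) F) := by
    rw [Sh_single, Sh_single, Matrix.vecMulVec_add, Matrix.add_vecMulVec, Matrix.add_vecMulVec]
    simp only [smul_add, neg_smul]
    abel
  rwa [h3] at h2

theorem gm_all (K : Subgroup (symplecticGroup (Fin n) F)) (hd : ∀ g, dl g ∈ K)
    (hg : ∀ l : Fin n, (l : ℕ) + 1 = n → ∀ c : F, gm (single l l c) (single_symm l c) ∈ K)
    (s : Matrix (Fin n) (Fin n) F) (hs : sᵀ = s) : gm s hs ∈ K := by
  have key : s ∈ Sh_H K := by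
    have e1 : s = ∑ i, ∑ j, ((if i < j then single i j (s i j) else 0) +
        (if j < i then single i j (s i j) else 0) + (if i = j then single i j (s i j) else 0)) := by
      conv_lhs => rw [matrix_eq_sum_single s]
      refine Finset.sum_congr rfl fun i _ => Finset.sum_congr rfl fun j _ => ?_
      rcases lt_trichotomy i j with h | h | h
      · rw [if_pos h, if_neg h.not_gt, if_neg h.ne, add_zero, add_zero]
      · rw [if_neg h.not_lt, if_neg h.not_gt, if_pos h, add_zero, zero_add]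
      · rw [if_neg h.not_gt, if_pos h, if_neg h.ne', add_zero, zero_add]
    have e2 : ∑ i, ∑ j, (if j < i then single i j (s i j) else (0 : Matrix (Fin n) (Fin n) F)) =
        ∑ i, ∑ j, (if i < j then single j i (s j i) else 0) := Finset.sum_comm
    simp only [Finset.sum_add_distrib] at e1
    rw [e2] at e1
    rw [e1]
    refine (Sh_H K).add_mem ?_ ?_
    · rw [← Finset.sum_add_distrib]
      refine (Sh_H K).sum_mem fun i _ => ?_
      rw [← Finset.sum_add_distrib]
      refine (Sh_H K).sum_mem fun j _ => ?_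
      by_cases h : i < j
      · rw [if_pos h, if_pos h]
        have h1 : s j i = s i j := congrFun (congrFun hs i) j
        rw [h1]
        exact Sh_pair hd hg h.ne _
      · rw [if_neg h, if_neg h, add_zero]
        exact (Sh_H K).zero_mem
    · refine (Sh_H K).sum_mem fun i _ => (Sh_H K).sum_mem fun j _ => ?_
      by_cases h : i = j
      · subst h
        rw [if_pos rfl, Sh_single]
        exact Sh_diag hd hg i _
      · rw [if_neg h]
        exact (Sh_H K).zero_mem
  exact key.2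

end Pool.Agent.H.MP_7d3ffc_al.SP
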