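import Pool.Agent.H.MP_7d3ffc_al.SP.Sa

/-!
# Module SP/Si: the symplectic group is generated by the three kinds of block matrices

For `(a b; c d)` there is a symmetric `s` with `a + s c` invertible (a private lemma of
Mathlib/LinearAlgebra/SymplecticGroup, copied as `Si_exists`), and a symplectic matrix with invertible upper
left block is a product of the three kinds.
-/

namespace Pool.Agent.H.MP_7d3ffc_al.SP

open Matrix

variable {n : ℕ} {F : Type*} [Field F]

/-- copied from Mathlib/LinearAlgebra/SymplecticGroup (private there) -/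
private theorem Si_exists {l : Type*} [Fintype l] [DecidableEq l] {R : Type*} [Field R]
    {A C : Matrix l l R} (hker : ∀ (x : l → R), (A • x = 0) → (C • x = 0) → x = 0)
    (hsymm : Aᵀ * C = Cᵀ * A) :
    ∃ (X : Matrix l l R), X.IsSymm ∧ IsUnit (A + X * C) := by
  rcases exists_rank_normal_form C with ⟨V, U, s, hV, hU, heq⟩
  set P := V * C * U with P_def; set Q := Vᵀ⁻¹ * A * U with Q_def
  set f := fun (x : Matrix l l R) ↦ x.submatrix s.symm s.symm
  have hf (x) : f x = x.submatrix s.symm s.symm := rfl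
  have f_unit {x} : IsUnit x → IsUnit (f x) := (isUnit_submatrix_equiv ..).2
  have f_mul (x y) : f (x * y) = f x * f y := submatrix_mul _ _ _ _ _ s.symm.bijective
  have _ : Invertible V := hV.invertible
  have _ : Invertible U := hU.invertible
  have _ : Invertible (f Vᵀ) := (f_unit (V.isUnit_transpose.2 hV)).invertible
  have con1 (x : Fin C.rank ⊕ Fin (Fintype.card l - C.rank) → R)
      (heq1 : (f Q) • x = 0) (heq2 : (f P) • x = 0) : x = 0 := by
    refine (f_unit hU).smul_left_cancel.1 ?_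
    rw [f_mul, f_mul, mul_assoc, mul_smul, IsUnit.smul_eq_zero, mul_smul, hf,
      smul_eq_mulVec, submatrix_mulVec_equiv, Equiv.symm_symm] at heq1 heq2
    · rw [Equiv.comp_symm_eq, Pi.zero_comp] at heq1 heq2
      exact s.surjective.injective_comp_right <| by simpa using hker _ heq1 heq2
    · exact f_unit hV
    · exact f_unit <| isUnit_nonsing_inv_iff.2 <| V.isUnit_transpose.2 hV
  have con2 : Qᵀ * P = Pᵀ * Q := by
    simp only [P_def, mul_assoc, transpose_mul, transpose_nonsing_inv, transpose_transpose, Q_def,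
      inv_mul_cancel_left_of_invertible, mul_inv_cancel_left_of_invertible]
    rw [← mul_assoc Aᵀ, hsymm, mul_assoc]
  replace con2 : (f Q).toBlocks₁₁ᵀ = (f Q).toBlocks₁₁ ∧ (f Q).toBlocks₁₂ = 0 := by
    apply_fun reindex s s at con2
    rw [reindex_apply, reindex_apply, ← hf, ← hf, f_mul, f_mul Pᵀ, heq, hf,
      ← transpose_submatrix, ← hf Q, ← (f Q).fromBlocks_toBlocks, hf (_)ᵀ, hf
      ((fromBlocks 1 0 0 0).submatrix _ _)] at con2
    simp [fromBlocks_transpose, fromBlocks_multiply] at con2; tauto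
  have con3 : IsUnit (f Q).toBlocks₂₂ := by
    refine mulVec_injective_iff_isUnit.1 ?_
    rw [← coe_mulVecLin, ← LinearMap.ker_eq_bot]
    refine ker_mulVecLin_eq_bot_iff.2 fun x hx ↦ Sum.elim_injective' <|
      (con1 _ ?_ ?_).trans Sum.elim_zero_zero.symm
    · rw [← (f Q).fromBlocks_toBlocks]; simp [hx, con2.2, fromBlocks_mulVec]
    · simp [hf, heq, fromBlocks_mulVec]
  set Y : Matrix (Fin C.rank ⊕ Fin (Fintype.card l - C.rank)) (Fin C.rank ⊕
    Fin (Fintype.card l - C.rank)) R := fromBlocks (1 - (f Q).toBlocks₁₁) 0 0 0 with Y_def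
  have hY_symm : Y.IsSymm := by
    rw [Y_def, isSymm_fromBlocks_iff]
    exact ⟨IsSymm.sub isSymm_one con2.1, by simp⟩
  set X := (f Vᵀ) * Y * (f V) with X_def
  refine ⟨X.submatrix s s, IsSymm.submatrix ?_ s, (isUnit_submatrix_equiv s.symm s.symm).1 ?_⟩
  · simp_rw [X_def, Matrix.IsSymm, transpose_mul, hY_symm.eq, hf, transpose_submatrix,
      transpose_transpose, mul_assoc]
  · have heq' : f (A + X.submatrix s s * C) = (f Vᵀ) * (f Q + Y * (f P)) * f (U⁻¹) := by
      simp_rw [hf, submatrix_add, Pi.add_apply, Q_def, P_def, ← hf, f_mul, hf, mul_add, ← mul_assoc,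
        ← inv_submatrix_equiv, add_mul, mul_assoc _ (U.submatrix _ _), mul_inv_of_invertible]
      simp [X_def]; rfl
    rw [← hf, heq', IsUnit.mul_iff, IsUnit.mul_iff]
    refine ⟨⟨isUnit_of_invertible _, ?_⟩, ?_⟩
    · nth_rw 1 [Y_def, heq, ← (f Q).fromBlocks_toBlocks, con2.2]
      simpa [hf, fromBlocks_multiply, fromBlocks_add]
    · exact f_unit <| isUnit_nonsing_inv_iff.2 hU


theorem Si_upper (A : symplecticGroup (Fin n) F) {b d : Matrix (Fin n) (Fin n) F}
    (h : A.1 = fromBlocks 1 b 0 d) : ∃ s hs, A = bt s hs := by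
  have h1 := A.2
  rw [h, SymplecticGroup.fromBlocks_mem_iff] at h1
  obtain ⟨-, h2, h3⟩ := h1
  rw [transpose_one, one_mul, transpose_zero, zero_mul, sub_zero] at h3
  subst h3
  rw [mul_one, transpose_one, one_mul] at h2
  exact ⟨b, h2, Subtype.ext h⟩

theorem sp_gen (K : Subgroup (symplecticGroup (Fin n) F)) (hd : ∀ g, dl g ∈ K)
    (hb : ∀ s hs, bt s hs ∈ K) (hg : ∀ s hs, gm s hs ∈ K) : K = ⊤ := by
  rw [eq_top_iff]
  rintro A -
  obtain ⟨a, b, c, d, hA⟩ : ∃ a b c d : Matrix (Fin n) (Fin n) F, A.1 = fromBlocks a b c d :=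
    ⟨_, _, _, _, (fromBlocks_toBlocks A.1).symm⟩
  have hA2 := A.2
  rw [hA, SymplecticGroup.fromBlocks_mem_iff] at hA2
  obtain ⟨s, hs, hu⟩ : ∃ X : Matrix (Fin n) (Fin n) F, X.IsSymm ∧ IsUnit (a + X * c) := by
    refine Si_exists (fun x hx1 hx2 => ?_) hA2.1
    have hun : IsUnit A.1 := by
      rw [isUnit_iff_isUnit_det]
      exact SymplecticGroup.symplectic_det A.2
    have hv0 : A.1 *ᵥ (Sum.elim x 0) = A.1 *ᵥ (Sum.elim 0 0) := by
      rw [smul_eq_mulVec] at hx1 hx2
      rw [hA]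
      simp [fromBlocks_mulVec, hx1, hx2]
    exact (Sum.elim_eq_iff.1 (mulVec_injective_iff_isUnit.2 hun hv0)).1
  have hs' : sᵀ = s := hs
  obtain ⟨g, hg1⟩ := hu
  have hB : (bt s hs' * A).1 = fromBlocks (g : Matrix (Fin n) (Fin n) F) (b + s * d) c d := by
    change fromBlocks 1 s 0 1 * A.1 = _
    rw [hA, fromBlocks_multiply, hg1]
    simp
  have hB2 := (bt s hs' * A).2
  rw [hB, SymplecticGroup.fromBlocks_mem_iff] at hB2
  obtain ⟨gi, hgi⟩ : ∃ gi : Matrix (Fin n) (Fin n) F, gi = (g⁻¹).1 := ⟨_, rfl⟩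
  have hgg : (g : Matrix (Fin n) (Fin n) F) * gi = 1 := by
    rw [hgi]
    exact g.mul_inv
  have hgg' : gi * (g : Matrix (Fin n) (Fin n) F) = 1 := by
    rw [hgi]
    exact g.inv_mul
  have hu : (c * gi)ᵀ = c * gi := by
    rw [transpose_mul]
    calc giᵀ * cᵀ = giᵀ * (cᵀ * g) * gi := by
          rw [mul_assoc, mul_assoc, hgg, mul_one]
      _ = giᵀ * ((g : Matrix (Fin n) (Fin n) F)ᵀ * c) * gi := by
          rw [hB2.1]
      _ = ((g : Matrix (Fin n) (Fin n) F) * gi)ᵀ * c * gi := by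
          rw [transpose_mul]
          simp only [mul_assoc]
      _ = _ := by rw [hgg, transpose_one, one_mul]
  have hu' : (-(c * gi))ᵀ = -(c * gi) := by
    rw [transpose_neg, hu]
  have hC : (dl g⁻¹ * (gm _ hu' * (bt s hs' * A))).1 =
      fromBlocks 1 (gi * (b + s * d)) 0
        ((g : Matrix (Fin n) (Fin n) F)ᵀ * (-(c * gi) * (b + s * d) + d)) := by
    have h0 : (dl g⁻¹).1 = fromBlocks gi 0 0 (g : Matrix (Fin n) (Fin n) F)ᵀ := by
      rw [dl_val, inv_inv, hgi]
    change (dl g⁻¹).1 * (fromBlocks 1 0 (-(c * gi)) 1 * (bt s hs' * A).1) = _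
    rw [h0, hB, fromBlocks_multiply, fromBlocks_multiply]
    simp only [one_mul, zero_mul, add_zero, zero_add, neg_mul]
    rw [mul_assoc c, hgg', mul_one, neg_add_cancel, mul_zero]
  obtain ⟨v, hv, hvv⟩ := Si_upper _ hC
  have h1 : bt v hv ∈ K := hb v hv
  rw [← hvv] at h1
  have h2 := (K.mul_mem_cancel_left (hd g⁻¹)).1 h1
  have h3 := (K.mul_mem_cancel_left (hg _ hu')).1 h2
  exact (K.mul_mem_cancel_left (hb s hs')).1 h3

end Pool.Agent.H.MP_7d3ffc_al.SP
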