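import Pool.Agent.H.MP_7d3ffc_al.SP.Sd
import Pool.Agent.H.MP_7d3ffc_al.SP.Se0
import Pool.Agent.H.MP_7d3ffc_al.SP.Se
import Pool.Agent.H.MP_7d3ffc_al.SP.Sf1

/-!
# Module SP/Sj: the conjugates of the linear characters of `SU`

A nontrivial linear character of `SU n F` is nontrivial on one of the root groups (`SU_gen`, `bt_gen`); the
torus acts on this root group through all elements or all squares (`orb_root`).
-/

namespace Pool.Agent.H.MP_7d3ffc_al.SP

open Matrix

variable {n : ℕ} {F : Type*} [Field F]

theorem Sj_tr_add {i j : Fin n} (h : i ≠ j) (a b : F) : tr h (a + b) = tr h a * tr h b := by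
  apply Units.ext
  change transvection i j (a + b) = transvection i j a * transvection i j b
  rw [transvection_mul_transvection_same i j h]

theorem Sj_tr_conj {i j : Fin n} (h : i ≠ j) (c : F) (t : Fin n → Fˣ) :
    dg t * tr h c * (dg t)⁻¹ = tr h ((t i : F) * c * ((t j)⁻¹ : Fˣ)) := by
  rw [mul_inv_eq_iff_eq_mul]
  apply Units.ext
  change diagonal (fun i => (t i : F)) * transvection i j c =
    transvection i j ((t i : F) * c * ((t j)⁻¹ : Fˣ)) * diagonal (fun i => (t i : F))
  ext x y
  rw [diagonal_mul, mul_diagonal, transvection, transvection, Matrix.add_apply, Matrix.add_apply]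
  by_cases hxy : x = y
  · subst hxy
    rw [one_apply_eq, single_apply_of_ne, single_apply_of_ne]
    · ring
    · rintro ⟨rfl, rfl⟩
      exact h rfl
    · rintro ⟨rfl, rfl⟩
      exact h rfl
  · rw [one_apply_ne hxy]
    by_cases h1 : i = x ∧ j = y
    · obtain ⟨rfl, rfl⟩ := h1
      rw [single_apply_same, single_apply_same, zero_add, zero_add, mul_assoc, Units.inv_mul,
        mul_one]
    · rw [single_apply_of_ne _ _ _ _ _ h1, single_apply_of_ne _ _ _ _ _ h1]
      ring

theorem Sj_bt_conj (s : Matrix (Fin n) (Fin n) F) (hs : sᵀ = s) (g : GL (Fin n) F)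
    (s' : Matrix (Fin n) (Fin n) F) (hs' : s'ᵀ = s') (h : (g : Matrix (Fin n) (Fin n) F) * s * gᵀ = s') :
    dl g * bt s hs * (dl g)⁻¹ = bt s' hs' := by
  subst h
  rw [mul_inv_eq_iff_eq_mul]
  apply Subtype.ext
  change (dl g).1 * fromBlocks 1 s 0 1 =
    fromBlocks 1 ((g : Matrix (Fin n) (Fin n) F) * s * gᵀ) 0 1 * (dl g).1
  rw [dl_val, fromBlocks_multiply, fromBlocks_multiply]
  have h1 : (g : Matrix (Fin n) (Fin n) F)ᵀ * ((g⁻¹).1)ᵀ = 1 := by
    rw [← transpose_mul, g.inv_mul, transpose_one]
  simp only [mul_one, mul_zero, zero_mul, add_zero, zero_add, one_mul, mul_assoc, h1]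

theorem Sj_ds (d : Fin n → F) (i j : Fin n) (c : F) :
    diagonal d * single i j c = single i j (d i * c) := by
  ext x y
  rw [diagonal_mul]
  by_cases h1 : i = x ∧ j = y
  · obtain ⟨rfl, rfl⟩ := h1
    rw [single_apply_same, single_apply_same]
  · rw [single_apply_of_ne _ _ _ _ _ h1, single_apply_of_ne _ _ _ _ _ h1, mul_zero]

theorem Sj_sd (d : Fin n → F) (i j : Fin n) (c : F) :
    single i j c * diagonal d = single i j (c * d j) := by
  ext x y
  rw [mul_diagonal]
  by_cases h1 : i = x ∧ j = y
  · obtain ⟨rfl, rfl⟩ := h1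
    rw [single_apply_same, single_apply_same]
  · rw [single_apply_of_ne _ _ _ _ _ h1, single_apply_of_ne _ _ _ _ _ h1, zero_mul]

theorem Sj_single (i : Fin n) (c : F) (t : Fin n → Fˣ) :
    (dg t : Matrix (Fin n) (Fin n) F) * single i i c * (dg t : Matrix (Fin n) (Fin n) F)ᵀ =
      single i i ((t i : F) ^ 2 * c) := by
  change diagonal (fun i => (t i : F)) * single i i c * (diagonal (fun i => (t i : F)))ᵀ = _
  rw [diagonal_transpose, Sj_ds, Sj_sd]
  congr 1
  ring

theorem Sj_pair {i j : Fin n} (c : F) (t : Fin n → Fˣ) :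
    (dg t : Matrix (Fin n) (Fin n) F) * (single i j c + single j i c) *
      (dg t : Matrix (Fin n) (Fin n) F)ᵀ =
      single i j ((t i : F) * t j * c) + single j i ((t i : F) * t j * c) := by
  change diagonal (fun i => (t i : F)) * (single i j c + single j i c) *
    (diagonal (fun i => (t i : F)))ᵀ = _
  rw [diagonal_transpose, mul_add, add_mul, Sj_ds, Sj_ds, Sj_sd, Sj_sd]
  congr 2 <;> ring

theorem SU_orb {p : ℕ} [Fact p.Prime] [CharP F p] [Finite F] (hq : p < Nat.card F)
    (μ : SU n F →* ℂˣ) (hμ : μ ≠ 1) :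
    p ≤ {ν : SU n F →* ℂˣ | ∃ g ∈ Subgroup.normalizer
      (SU n F : Set (symplecticGroup (Fin n) F)),
      ∀ a b : SU n F, (b : symplecticGroup (Fin n) F) = g * a * g⁻¹ → ν a = μ b}.ncard := by
  have hfin : Finite (symplecticGroup (Fin n) F) := Subtype.finite
  by_cases h1 : ∀ (i : Fin n) (c : F), μ ⟨bt (single i i c) (single_symm i c), bt_mem _ _⟩ = 1
  · by_cases h2 : ∀ (i j : Fin n), i < j → ∀ c : F,
        μ ⟨bt (single i j c + single j i c) (pair_symm i j c), bt_mem _ _⟩ = 1
    · by_cases h0 : ∀ (i j : Fin n) (h : i < j) (c : F), μ ⟨dl (tr h.ne c), tr_mem h c⟩ = 1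
      · exact absurd (SU_gen μ h0 (bt_gen μ h1 h2)) hμ
      · push Not at h0
        obtain ⟨i, j, hij, c, hc⟩ := h0
        refine orb_root (SU n F) hq μ (fun c => ⟨dl (tr hij.ne c), tr_mem hij c⟩) (fun a b => ?_)
          (fun u => dl (dg (Function.update 1 i u))) (fun u => dg_norm _) 1 (Or.inl rfl)
          (fun u c => ?_) ⟨c, hc⟩
        · apply Subtype.ext
          change dl (tr hij.ne (a + b)) = dl (tr hij.ne a) * dl (tr hij.ne b)
          rw [Sj_tr_add, map_mul]
        · change dl (dg (Function.update 1 i u)) * dl (tr hij.ne c) *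
            (dl (dg (Function.update 1 i u)))⁻¹ = dl (tr hij.ne ((u : F) ^ 1 * c))
          rw [← map_mul, ← map_inv, ← map_mul, Sj_tr_conj, Function.update_self,
            Function.update_of_ne hij.ne', Pi.one_apply, inv_one, Units.val_one, mul_one, pow_one]
    · push Not at h2
      obtain ⟨i, j, hij, c, hc⟩ := h2
      refine orb_root (SU n F) hq μ (fun c => ⟨bt (single i j c + single j i c)
          (pair_symm i j c), bt_mem _ _⟩) (fun a b => ?_)
        (fun u => dl (dg (Function.update 1 i u))) (fun u => dg_norm _) 1 (Or.inl rfl)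
        (fun u c => ?_) ⟨c, hc⟩
      · apply Subtype.ext
        change bt (single i j (a + b) + single j i (a + b)) (pair_symm i j _) =
          bt (single i j a + single j i a) (pair_symm i j a) *
            bt (single i j b + single j i b) (pair_symm i j b)
        rw [← bt_add]
        congr 1
        rw [single_add, single_add]
        abel
      · refine Sj_bt_conj _ (pair_symm i j c) _ _ (pair_symm i j _) ?_
        rw [Sj_pair, Function.update_self, Function.update_of_ne hij.ne', Pi.one_apply,
          Units.val_one, mul_one, pow_one]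
  · push Not at h1
    obtain ⟨i, c, hc⟩ := h1
    refine orb_root (SU n F) hq μ (fun c => ⟨bt (single i i c) (single_symm i c), bt_mem _ _⟩)
      (fun a b => ?_) (fun u => dl (dg (Function.update 1 i u))) (fun u => dg_norm _) 2
      (Or.inr rfl) (fun u c => ?_) ⟨c, hc⟩
    · apply Subtype.ext
      change bt (single i i (a + b)) (single_symm i _) =
        bt (single i i a) (single_symm i a) * bt (single i i b) (single_symm i b)
      rw [← bt_add]
      congr 1
      rw [single_add]
    · refine Sj_bt_conj _ (single_symm i c) _ _ (single_symm i _) ?_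
      rw [Sj_single, Function.update_self]

end Pool.Agent.H.MP_7d3ffc_al.SP
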