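import Pool.Agent.H.MP_7d3ffc_al.SP.Sb
import Pool.Agent.H.MP_7d3ffc_al.SP.Sc
import Pool.Agent.H.MP_7d3ffc_al.SP.Sf2
import Pool.Agent.H.MP_7d3ffc_al.SP.Sf3
import Pool.Agent.H.MP_7d3ffc_al.SP.Sg0
import Pool.Agent.H.MP_7d3ffc_al.SP.Sg
import Pool.Agent.H.MP_7d3ffc_al.SP.Sh
import Pool.Agent.H.MP_7d3ffc_al.SP.Si
import Pool.Agent.H.MP_7d3ffc_al.SP.Sj
import Pool.Agent.H.MP_7d3ffc_al.LC.Cor
import Pool.Agent.H.MP_7d3ffc_al.DN.Prd

/-!
# Module SP/Sk: Q1 for the symplectic groups over the fields with more than `p` elements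
-/

namespace Pool.Agent.H.MP_7d3ffc_al.SP

open Matrix Module
open Pool.Agent.H.MP_7d3ffc_al

variable {n : ℕ} {F : Type*} [Field F]

theorem Kg_top : Kg n F = ⊤ :=
  sp_gen _ (dl_all _ dg_mem (tr_all _ (fun _ _ h c => SU_le_Kg (tr_mem h c))
      fun _ _ h hs c => tr_low h hs c))
    (fun s hs => SU_le_Kg (bt_mem s hs))
    (gm_all _ (dl_all _ dg_mem (tr_all _ (fun _ _ h c => SU_le_Kg (tr_mem h c))
      fun _ _ h hs c => tr_low h hs c)) fun _ hl c => gm_low hl c)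

variable (n F) in
/-- `SU` as a Sylow `p`-subgroup -/
def SUS (p : ℕ) [Fact p.Prime] [CharP F p] [Finite F] : Sylow p (symplecticGroup (Fin n) F) where
  toSubgroup := SU n F
  isPGroup' := SU_pgroup
  is_maximal' := fun {S} hS h => SU_max S hS h

theorem sp_q1.{u, v} {n : ℕ} {F : Type u} [Field F] [Finite F] {p : ℕ} [Fact p.Prime] [CharP F p]
    (hq : p < Nat.card F) : DN.Q1At.{u, v} p (symplecticGroup (Fin n) F) (SUS n F p).toSubgroup := by
  intro V _ _ _ ρ hρ hd hne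
  have hfin : Finite (symplecticGroup (Fin n) F) := Subtype.finite
  exact LC.of_gen (SUS n F p) Kg_top (fun μ hμ => SU_orb hq μ hμ) ρ hρ hd hne

end Pool.Agent.H.MP_7d3ffc_al.SP
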