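import Pool.Agent.H.MP_7d3ffc_al.SP.Rg
import Pool.Agent.H.MP_7d3ffc_al.SP.Sk
import Pool.Agent.H.MP_7d3ffc_al.SP.Fac
import Pool.Agent.H.MP_7d3ffc_al.LC.Rt2
import Pool.Agent.H.MP_7d3ffc_al.LC.Bne
import Pool.Agent.H.MP_7d3ffc_al.LC.Fin

/-!
# Module SP/Sl: the main theorem for the defining characteristic
-/

namespace Pool.Agent.H.MP_7d3ffc_al.SP

open Matrix Module Pool.Agent.H.MP_7d3ffc_al Pool.Agent.H.MP_7d3ffc_al.DC
  Pool.Agent.H.MP_7d3ffc_al.DN

/-- Q1 for `S` at some Sylow `p`-subgroup -/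
def Ex.{u, v} (p : ℕ) (S : Type u) [Group S] : Prop :=
  ∃ Q : Sylow p S, Q1At.{u, v} p S (Q : Subgroup S)

theorem ex_equiv.{u, v, w} {p : ℕ} [Fact p.Prime] {S : Type u} {T : Type w} [Group S] [Group T]
    [Finite S] [Finite T] (e : S ≃* T) (hT : Ex.{w, v} p T) : Ex.{u, v} p S := by
  obtain ⟨Q, hQ⟩ := hT
  have h1 := q1_surj.{w, v, u} (e.symm : T →* S) e.symm.surjective (Q : Subgroup T) hQ
  have h2 : IsPGroup p ((Q : Subgroup T).map (e.symm : T →* S)) :=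
    IsPGroup.map Q.isPGroup' (e.symm : T →* S)
  have h3 : ¬ p ∣ ((Q : Subgroup T).map (e.symm : T →* S)).index := by
    have h4 : ((Q : Subgroup T).map (e.symm : T →* S)).index = (Q : Subgroup T).index :=
      Subgroup.index_map_of_bijective e.symm.bijective _
    rw [h4]
    exact Q.not_dvd_index
  exact ⟨h2.toSylow h3, h1⟩

theorem ex_sl.{u, v} {p : ℕ} [Fact p.Prime] (n : ℕ) (F : Type u) [Field F] [Finite F]
    [CharP F p] : Ex.{u, v} p (SpecialLinearGroup (Fin n) F) := by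
  refine ⟨(UT_pgroup (n := n) (F := F) (p := p)).toSylow UT_index, ?_⟩
  intro V _ _ _ ρ hρ hd hne
  exact main_surj (MonoidHom.id _) Function.surjective_id
    ((UT_pgroup (n := n) (F := F) (p := p)).toSylow UT_index) ρ hρ hd hne

theorem ex_rg.{u, v} {p : ℕ} [Fact p.Prime] {S : Type u} [Group S] [Finite S]
    (R : RootGroups p S) : Ex.{u, v} p S := by
  obtain ⟨ι, M, N, Φ, b, F, hq, x, hadd, hcomm, U, hU, hp, hidx, h, hh, hx, hgen⟩ := R
  refine ⟨hp.toSylow hidx, ?_⟩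
  intro V _ _ _ ρ hρ hd hne
  exact LC.of_roots (hp.toSylow hidx) Φ b hq x hadd hcomm hU.symm h hh hx hgen ρ hρ hd hne

theorem ex_bn.{u, v} {p : ℕ} [Fact p.Prime] {S : Type u} [Group S] [Finite S]
    (hS : LC.BNFactor p S) : Ex.{u, v} p S := by
  obtain ⟨U, D, hp, hidx, horb, hbad, hT⟩ := hS
  refine ⟨hp.toSylow hidx, ?_⟩
  intro V _ _ _ ρ hρ hd hne
  exact LC.of_bn (hp.toSylow hidx) D horb hbad hT ρ hρ hd hne

theorem ex_factor.{u, v} {p : ℕ} [Fact p.Prime] {S : Type u} [Group S] [Finite S]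
    (hS : Factor p S) : Ex.{u, v} p S := by
  rcases hS with ⟨n, F, _, _, _, ⟨⟨e⟩⟩ | ⟨hq, ⟨e⟩⟩⟩ | hB
  · exact ex_equiv e (ex_sl n F)
  · have hfin : Finite (symplecticGroup (Fin n) F) := Subtype.finite
    exact ex_equiv e ⟨SUS n F p, sp_q1 hq⟩
  · exact ex_bn hB

theorem main_v4.{u, v, w} {G : Type u} [Group G] [Finite G] {p : ℕ} [Fact p.Prime] {k : ℕ}
    {S : Fin k → Type w} [∀ i, Group (S i)] [∀ i, Finite (S i)] (hS : ∀ i, Factor p (S i))
    (π : (∀ i, S i) →* G) (hN : π.range.Normal) (hidx : ¬ p ∣ π.range.index) (P : Sylow p G)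
    {V : Type v} [AddCommGroup V] [Module ℂ V] [FiniteDimensional ℂ V]
    (ρ : Representation ℂ G V) (hρ : ρ.IsIrreducible) (hd : p ∣ finrank ℂ V)
    (hne : (Lin ρ (P : Subgroup G)).Nonempty) : p ≤ (Lin ρ (P : Subgroup G)).ncard := by
  choose Q hQ using fun i => (ex_factor.{w, v} (hS i))
  exact LC.main_q1 Q hQ π hN hidx P ρ hρ hd hne

theorem main_sp.{u, v} {n : ℕ} {F : Type u} [Field F] [Finite F] {p : ℕ} [Fact p.Prime]
    [CharP F p] (hq : p < Nat.card F) {V : Type v} [AddCommGroup V] [Module ℂ V]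
    [FiniteDimensional ℂ V] (P : Sylow p (symplecticGroup (Fin n) F))
    (ρ : Representation ℂ (symplecticGroup (Fin n) F) V) (hρ : ρ.IsIrreducible)
    (hd : p ∣ finrank ℂ V) (hne : (Lin ρ (P : Subgroup (symplecticGroup (Fin n) F))).Nonempty) :
    p ≤ (Lin ρ (P : Subgroup (symplecticGroup (Fin n) F))).ncard := by
  have hfin : Finite (symplecticGroup (Fin n) F) := Subtype.finite
  let π : (∀ _ : Fin 1, symplecticGroup (Fin n) F) →* symplecticGroup (Fin n) F :=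
    Pi.evalMonoidHom (fun _ : Fin 1 => (symplecticGroup (Fin n) F)) 0
  have hπ : Function.Surjective π := fun g => ⟨fun _ => g, rfl⟩
  have htop : π.range = ⊤ := MonoidHom.range_eq_top.2 hπ
  refine LC.main_q1 (fun _ => SUS n F p) (fun _ => sp_q1 hq) π ?_ ?_ P ρ hρ hd hne
  · rw [htop]
    infer_instance
  · rw [htop, Subgroup.index_top]
    exact fun h => (Fact.out : p.Prime).one_lt.ne' (Nat.dvd_one.1 h)

end Pool.Agent.H.MP_7d3ffc_al.SP
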