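import Pool.Agent.H.MP_7d3ffc_al.DC.Defs

/-!
# Module SP/Ta: monomial matrices in `SL_n`

`IsMon g σ`: the nonzero entries of `g` are at the positions `(σ j, j)`.
* `IsMon_mul`: `(g h) i j = ∑ k, g i k * h k j = g i (τ j) * h (τ j) j`, nonzero iff `i = σ (τ j)`.
* `IsMon_inv`: every column of the inverse: `g` has the inverse `h` with `h (j) (σ j) = (g (σ j) j)⁻¹`; or: from
  `g⁻¹ * g = 1`: `∑ k, g⁻¹ i k * g k j = g⁻¹ i (σ j) * g (σ j) j = δ i j`, so `g⁻¹ i (σ j) ≠ 0 ↔ i = j`.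
* `Npi`: choose the permutation (`IsMon_unique`).
-/

namespace Pool.Agent.H.MP_7d3ffc_al.SP

open Matrix Matrix.SpecialLinearGroup Pool.Agent.H.MP_7d3ffc_al.DC

variable {n : ℕ} {F : Type*} [Field F]

/-- the nonzero entries of `g` are at the positions `(σ j, j)` -/
def IsMon (g : SpecialLinearGroup (Fin n) F) (σ : Equiv.Perm (Fin n)) : Prop :=
  ∀ i j, g.1 i j ≠ 0 ↔ i = σ j

theorem IsMon_unique {g : SpecialLinearGroup (Fin n) F} {σ τ : Equiv.Perm (Fin n)}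
    (h1 : IsMon g σ) (h2 : IsMon g τ) : σ = τ := by
  ext j
  have h3 : g.1 (σ j) j ≠ 0 := (h1 _ _).2 rfl
  rw [(h2 _ _).1 h3]

theorem Ta_zero {g : SpecialLinearGroup (Fin n) F} {σ : Equiv.Perm (Fin n)}
    (h1 : IsMon g σ) {i j : Fin n} (h : i ≠ σ j) : g.1 i j = 0 := by
  by_contra h2
  exact h ((h1 i j).1 h2)

theorem IsMon_one : IsMon (1 : SpecialLinearGroup (Fin n) F) 1 := by
  intro i j
  show (1 : Matrix (Fin n) (Fin n) F) i j ≠ 0 ↔ i = j
  by_cases h : i = j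
  · rw [h, Matrix.one_apply_eq]
    exact ⟨fun _ => rfl, fun _ => one_ne_zero⟩
  · rw [Matrix.one_apply_ne h]
    exact ⟨fun h2 => absurd rfl h2, fun h2 => absurd h2 h⟩

theorem IsMon_mul {g h : SpecialLinearGroup (Fin n) F} {σ τ : Equiv.Perm (Fin n)}
    (h1 : IsMon g σ) (h2 : IsMon h τ) : IsMon (g * h) (σ * τ) := by
  intro i j
  have h3 : (g * h).1 i j = g.1 i (τ j) * h.1 (τ j) j := by
    show (g.1 * h.1) i j = _
    rw [Matrix.mul_apply]
    refine Finset.sum_eq_single (τ j) (fun k _ hk => ?_) (fun hk => absurd (Finset.mem_univ _) hk)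
    rw [Ta_zero h2 hk, mul_zero]
  have h4 : h.1 (τ j) j ≠ 0 := (h2 _ _).2 rfl
  rw [h3, mul_ne_zero_iff, h1 i (τ j)]
  exact ⟨fun h5 => h5.1, fun h5 => ⟨h5, h4⟩⟩

theorem IsMon_inv {g : SpecialLinearGroup (Fin n) F} {σ : Equiv.Perm (Fin n)}
    (h1 : IsMon g σ) : IsMon g⁻¹ σ⁻¹ := by
  intro i j
  have h2 : ∀ k, (g⁻¹).1 i (σ k) * g.1 (σ k) k = (1 : Matrix (Fin n) (Fin n) F) i k := by
    intro k
    have h3 : (g⁻¹ * g).1 i k = (1 : Matrix (Fin n) (Fin n) F) i k := by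
      rw [inv_mul_cancel]
      rfl
    have h4 : (g⁻¹ * g).1 i k = (g⁻¹).1 i (σ k) * g.1 (σ k) k := by
      show ((g⁻¹).1 * g.1) i k = _
      rw [Matrix.mul_apply]
      refine Finset.sum_eq_single (σ k) (fun l _ hl => ?_)
        (fun hl => absurd (Finset.mem_univ _) hl)
      rw [Ta_zero h1 hl, mul_zero]
    rw [← h4, h3]
  have h5 := h2 (σ⁻¹ j)
  have h6 : σ (σ⁻¹ j) = j := by simp
  rw [h6] at h5
  have h7 : g.1 j (σ⁻¹ j) ≠ 0 := (h1 _ _).2 h6.symm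
  constructor
  · intro h8
    by_contra h9
    rw [Matrix.one_apply_ne h9] at h5
    exact (mul_ne_zero h8 h7) h5
  · intro h8 h9
    rw [h9, zero_mul, h8, Matrix.one_apply_eq] at h5
    exact zero_ne_one h5

variable (n F) in
/-- the monomial matrices -/
def Nm : Subgroup (SpecialLinearGroup (Fin n) F) where
  carrier := {g | ∃ σ, IsMon g σ}
  mul_mem' := fun ⟨σ, h1⟩ ⟨τ, h2⟩ => ⟨σ * τ, IsMon_mul h1 h2⟩
  one_mem' := ⟨1, IsMon_one⟩
  inv_mem' := fun ⟨σ, h1⟩ => ⟨σ⁻¹, IsMon_inv h1⟩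

variable (n F) in
/-- the permutation of a monomial matrix -/
noncomputable def Npi : Nm n F →* Equiv.Perm (Fin n) where
  toFun m := m.2.choose
  map_one' := IsMon_unique (1 : Nm n F).2.choose_spec IsMon_one
  map_mul' := fun g h => IsMon_unique (g * h).2.choose_spec
    (IsMon_mul g.2.choose_spec h.2.choose_spec)

theorem Npi_spec (m : Nm n F) : IsMon m.1 (Npi n F m) := m.2.choose_spec

theorem Npi_eq {m : Nm n F} {σ : Equiv.Perm (Fin n)} (h : IsMon m.1 σ) : Npi n F m = σ :=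
  IsMon_unique (Npi_spec m) h

end Pool.Agent.H.MP_7d3ffc_al.SP
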