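import Mathlib

/-!
# Module SP/Tb: inversions of permutations

`invn w` is the number of the pairs `a < b` with `w b < w a`.
* `invn_lt`: `j = i + 1`, `a0 = w⁻¹ j < b0 = w⁻¹ i`. The swap of the neighbours `i, j` changes the order of
  `w a` and `w b` only for `{a, b} = {a0, b0}`: the set of the inversions of `swap i j * w` is contained in the
  set of the inversions of `w` (same pairs), and `(a0, b0)` is an inversion of `w` but not of `swap i j * w`.
* `exists_desc`: if `w⁻¹ i < w⁻¹ j` for all neighbours `j = i + 1`, then `w⁻¹` is strictly monotone, so it is `1`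
  (`Equiv.Perm`, for instance `StrictMono.le_apply` or `Fin.strictMono_unique`, order isomorphisms of `Fin n` are
  trivial).
-/

namespace Pool.Agent.H.MP_7d3ffc_al.SP

variable {n : ℕ}

/-- the number of inversions -/
def invn (w : Equiv.Perm (Fin n)) : ℕ :=
  (Finset.univ.filter fun x : Fin n × Fin n => x.1 < x.2 ∧ w x.2 < w x.1).card

theorem invn_lt (w : Equiv.Perm (Fin n)) {i j : Fin n} (hs : (j : ℕ) = i + 1)
    (h : w⁻¹ j < w⁻¹ i) : invn (Equiv.swap i j * w) < invn w := by
  have ai : ∀ x, w (w⁻¹ x) = x := w.apply_symm_apply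
  have ia : ∀ x, w⁻¹ (w x) = x := w.symm_apply_apply
  refine Finset.card_lt_card ((Finset.ssubset_iff_of_subset ?_).2
    ⟨(w⁻¹ j, w⁻¹ i), ?_, ?_⟩)
  · rintro ⟨a, b⟩ hab
    rw [Finset.mem_filter] at hab ⊢
    obtain ⟨-, h1, h2⟩ := hab
    refine ⟨Finset.mem_univ _, h1, ?_⟩
    dsimp only at h1 h2 ⊢
    rw [Equiv.Perm.mul_apply, Equiv.Perm.mul_apply] at h2
    by_contra h3
    have h4 : w a ≠ w b := fun h5 => h1.ne (w.injective h5)
    have h5 : w a < w b := lt_of_le_of_ne (not_lt.1 h3) h4
    have h6 : w a = i ∧ w b = j := by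
      rw [Equiv.swap_apply_def, Equiv.swap_apply_def] at h2
      have h7 := Fin.lt_def.1 h5
      split_ifs at h2 with g1 g2 g3 g4 g5 g6 g7 g8
      all_goals first
        | exact ⟨by assumption, by assumption⟩
        | (exfalso
           simp only [Fin.lt_def, Fin.ext_iff] at *
           omega)
    have h7 : a = w⁻¹ i := by rw [← h6.1, ia]
    have h8 : b = w⁻¹ j := by rw [← h6.2, ia]
    rw [h7, h8] at h1
    exact absurd (h1.trans h) (lt_irrefl _)
  · rw [Finset.mem_filter]
    refine ⟨Finset.mem_univ _, h, ?_⟩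
    dsimp only
    rw [ai, ai, Fin.lt_def]
    omega
  · rw [Finset.mem_filter]
    rintro ⟨-, -, h2⟩
    dsimp only at h2
    rw [Equiv.Perm.mul_apply, Equiv.Perm.mul_apply, ai, ai, Equiv.swap_apply_left, Equiv.swap_apply_right, Fin.lt_def] at h2
    omega

theorem exists_desc (w : Equiv.Perm (Fin n)) (hw : w ≠ 1) :
    ∃ i j : Fin n, (j : ℕ) = i + 1 ∧ w⁻¹ j < w⁻¹ i := by
  by_contra hne
  push Not at hne
  refine hw ?_
  have h1 : ∀ k : ℕ, ∀ i j : Fin n, (j : ℕ) = i + k + 1 → w⁻¹ i < w⁻¹ j := by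
    intro k
    induction k with
    | zero =>
      intro i j hij
      refine lt_of_le_of_ne (hne i j hij) fun h2 => ?_
      have h3 := Fin.ext_iff.1 (w⁻¹.injective h2)
      omega
    | succ k ih =>
      intro i j hij
      have h2 : (i : ℕ) + k + 1 < n := by
        have := j.isLt
        omega
      refine (ih i ⟨i + k + 1, h2⟩ rfl).trans_le (hne _ j ?_)
      show (j : ℕ) = i + k + 1 + 1
      omega
  have h2 : StrictMono (w⁻¹ : Equiv.Perm (Fin n)) := by
    intro i j hij
    have h3 := Fin.lt_def.1 hij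
    exact h1 (j - i - 1) i j (by omega)
  have h3 : ((w⁻¹ : Equiv.Perm (Fin n)) : Fin n → Fin n) = id := by
    refine (h2.range_inj strictMono_id).1 ?_
    rw [(w⁻¹).surjective.range_eq, Set.range_id]
  have h4 : w⁻¹ = 1 := Equiv.ext fun x => congrFun h3 x
  exact inv_eq_one.1 h4

end Pool.Agent.H.MP_7d3ffc_al.SP
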