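import Pool.Agent.H.MP_7d3ffc_al.SP.Ta

/-!
# Module SP/Tc: the normalizer of the unitriangular matrices

* `norm_of_tri`: an upper triangular `g` in `SL_n` normalizes `UT`: `g u g⁻¹` is upper triangular with diagonal
  entries `g i i * 1 * (g i i)⁻¹` (`Defs_mul_diag`, `Defs_tri_iff`, the inverse of a triangular matrix is
  triangular: see the proof of `inv_mem'` of `UT` in module DC/Defs).
* `tri_of_norm`: let `g` normalize `UT`. Let `k` be minimal such that some `g i k ≠ 0` with `k < i` (i.e. the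
  columns before `k` are fine). Let `v = g e_k` be the column `k`. For `u ∈ UT`: `g u g⁻¹ ∈ UT`. Hint: the
  vectors fixed modulo the span of `e_0, …, e_(k-1)` by all of `UT` form the span of `e_0, …, e_k`; `g` maps the
  flag of `UT` to the flag of `g UT g⁻¹ = UT`. By induction on `k`: `g` maps the span `V_k` of the `e_l`, `l < k`, to
  itself; for `u ∈ UT`: `u g e_k = g u' e_k` with `u' = g⁻¹ u g ∈ UT`, `u' e_k - e_k ∈ V_k`, so
  `u g e_k - g e_k ∈ V_k` for all `u`; taking `u = 1 + E_(k i)`, `k < i`: the entry `k` of `u g e_k - g e_k` is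
  `g i k`, so it is `0`.
* `norm_split`: for an upper triangular `g` let `t` be the diagonal matrix with the entries `g i i` (determinant
  `1` as that of `g`), `u = g * t⁻¹` is unitriangular.
* `mon_norm`: a monomial matrix in the normalizer is upper triangular, so `σ j ≤ j` for all `j`, so `σ = 1`.
-/

namespace Pool.Agent.H.MP_7d3ffc_al.SP

open Matrix Matrix.SpecialLinearGroup Pool.Agent.H.MP_7d3ffc_al.DC

variable {n : ℕ} {F : Type*} [Field F]

private theorem Tc_inv_tri {g : SpecialLinearGroup (Fin n) F}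
    (h : ∀ i j : Fin n, j < i → g.1 i j = 0) : ∀ i j : Fin n, j < i → (g⁻¹).1 i j = 0 := by
  have hinv : (g⁻¹).1 = (g.1)⁻¹ := by
    have h1 : g.1 * (g⁻¹).1 = 1 := congrArg Subtype.val (mul_inv_cancel g)
    exact (Matrix.inv_eq_right_inv h1).symm
  have : Invertible g.1 := Matrix.invertibleOfIsUnitDet _ (by rw [g.2]; exact isUnit_one)
  rw [Defs_tri_iff, hinv]
  exact Matrix.blockTriangular_inv_of_blockTriangular (Defs_tri_iff.1 h)

private theorem Tc_inv_diag {g : SpecialLinearGroup (Fin n) F}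
    (h : ∀ i j : Fin n, j < i → g.1 i j = 0) (i : Fin n) : g.1 i i * (g⁻¹).1 i i = 1 := by
  have h1 : g.1 * (g⁻¹).1 = 1 := congrArg Subtype.val (mul_inv_cancel g)
  rw [← Defs_mul_diag h (Tc_inv_tri h), h1, Matrix.one_apply_eq]

private theorem Tc_conj {g : SpecialLinearGroup (Fin n) F}
    (h : ∀ i j : Fin n, j < i → g.1 i j = 0) {u : SpecialLinearGroup (Fin n) F}
    (hu : u ∈ UT n F) : g * u * g⁻¹ ∈ UT n F := by
  rw [mem_UT] at hu ⊢
  have h1 : ∀ i j : Fin n, j < i → (g.1 * u.1) i j = 0 :=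
    Defs_tri_iff.2 ((Defs_tri_iff.1 h).mul (Defs_tri_iff.1 hu.1))
  have h2 : (g * u * g⁻¹).1 = g.1 * u.1 * (g⁻¹).1 := rfl
  rw [h2]
  refine ⟨Defs_tri_iff.2 ((Defs_tri_iff.1 h1).mul (Defs_tri_iff.1 (Tc_inv_tri h))), fun i => ?_⟩
  rw [Defs_mul_diag h1 (Tc_inv_tri h), Defs_mul_diag h hu.1, hu.2, mul_one, Tc_inv_diag h]

theorem norm_of_tri {g : SpecialLinearGroup (Fin n) F} (h : ∀ i j : Fin n, j < i → g.1 i j = 0) :
    g ∈ Subgroup.normalizer (UT n F : Set (SpecialLinearGroup (Fin n) F)) := by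
  rw [Subgroup.mem_normalizer_iff]
  intro u
  refine ⟨fun hu => Tc_conj h hu, fun hu => ?_⟩
  have h1 := Tc_conj (Tc_inv_tri h) hu
  have h2 : g⁻¹ * (g * u * g⁻¹) * g⁻¹⁻¹ = u := by group
  rw [h2] at h1
  exact h1

theorem tri_of_norm {g : SpecialLinearGroup (Fin n) F}
    (h : g ∈ Subgroup.normalizer (UT n F : Set (SpecialLinearGroup (Fin n) F))) :
    ∀ i j : Fin n, j < i → g.1 i j = 0 := by
  rw [Subgroup.mem_normalizer_iff] at h
  have key : ∀ k : ℕ, ∀ j : Fin n, (j : ℕ) = k → ∀ i : Fin n, j < i → g.1 i j = 0 := by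
    intro k
    induction k using Nat.strong_induction_on with
    | _ k ih =>
      intro j hj i hij
      have hu := (el hij (1 : F)).2
      have hu' : g⁻¹ * SpecialLinearGroup.transvection hij.ne (1 : F) * g ∈ UT n F := by
        have h1 := (h (g⁻¹ * SpecialLinearGroup.transvection hij.ne (1 : F) * g)).2 (by
          have h2 : g * (g⁻¹ * SpecialLinearGroup.transvection hij.ne (1 : F) * g) * g⁻¹ =
              SpecialLinearGroup.transvection hij.ne (1 : F) := by group
          rw [h2]
          exact hu)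
        exact h1
      obtain ⟨u', hu'd⟩ : ∃ u', u' = g⁻¹ * SpecialLinearGroup.transvection hij.ne (1 : F) * g :=
        ⟨_, rfl⟩
      rw [← hu'd, mem_UT] at hu'
      have h3 : SpecialLinearGroup.transvection hij.ne (1 : F) * g = g * u' := by
        rw [hu'd]
        group
      have h4 : Matrix.transvection j i (1 : F) * g.1 = g.1 * u'.1 := congrArg Subtype.val h3
      have h5 : (Matrix.transvection j i (1 : F) * g.1) j j = g.1 j j + 1 * g.1 i j :=
        Matrix.transvection_mul_apply_same _ _ _ _ _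
      have h6 : (g.1 * u'.1) j j = g.1 j j := by
        rw [Matrix.mul_apply, Finset.sum_eq_single j]
        · rw [hu'.2, mul_one]
        · intro l _ hl
          rcases lt_or_gt_of_ne hl with h7 | h7
          · rw [ih l (by rw [← hj]; exact h7) l rfl j h7, zero_mul]
          · rw [hu'.1 l j h7, mul_zero]
        · intro h7
          exact absurd (Finset.mem_univ j) h7
      rw [h4, h6, one_mul] at h5
      exact left_eq_add.1 h5
  intro i j hij
  exact key j j rfl i hij

theorem norm_split {g : SpecialLinearGroup (Fin n) F}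
    (h : g ∈ Subgroup.normalizer (UT n F : Set (SpecialLinearGroup (Fin n) F))) :
    ∃ u ∈ UT n F, ∃ t : SpecialLinearGroup (Fin n) F, IsMon t 1 ∧ g = u * t := by
  have ht := tri_of_norm h
  have hne : ∀ i, g.1 i i ≠ 0 := fun i h0 => by
    have h1 := Tc_inv_diag ht i
    rw [h0, zero_mul] at h1
    exact zero_ne_one h1
  obtain ⟨t, htd⟩ : ∃ t : SpecialLinearGroup (Fin n) F, t.1 = Matrix.diagonal fun i => g.1 i i := by
    refine ⟨⟨Matrix.diagonal fun i => g.1 i i, ?_⟩, rfl⟩
    rw [Matrix.det_diagonal, ← Matrix.det_of_upperTriangular (Defs_tri_iff.1 ht)]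
    exact g.2
  have htt : ∀ i j : Fin n, j < i → t.1 i j = 0 := fun i j hij => by
    rw [htd, Matrix.diagonal_apply_ne _ hij.ne']
  refine ⟨g * t⁻¹, ?_, t, fun i j => ?_, ?_⟩
  · rw [mem_UT]
    have h2 : (g * t⁻¹).1 = g.1 * (t⁻¹).1 := rfl
    rw [h2]
    refine ⟨Defs_tri_iff.2 ((Defs_tri_iff.1 ht).mul (Defs_tri_iff.1 (Tc_inv_tri htt))),
      fun i => ?_⟩
    rw [Defs_mul_diag ht (Tc_inv_tri htt)]
    have h3 := Tc_inv_diag htt i
    rw [htd, Matrix.diagonal_apply_eq] at h3
    exact h3
  · rw [htd, Equiv.Perm.one_apply]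
    constructor
    · intro h3
      by_contra h4
      exact h3 (Matrix.diagonal_apply_ne _ h4)
    · rintro rfl
      rw [Matrix.diagonal_apply_eq]
      exact hne i
  · rw [inv_mul_cancel_right]

theorem mon_norm {g : SpecialLinearGroup (Fin n) F} {σ : Equiv.Perm (Fin n)} (h : IsMon g σ) :
    σ = 1 ↔ g ∈ Subgroup.normalizer (UT n F : Set (SpecialLinearGroup (Fin n) F)) := by
  constructor
  · rintro rfl
    refine norm_of_tri fun i j hij => ?_
    by_contra h1
    have h2 := (h i j).1 h1
    rw [Equiv.Perm.one_apply] at h2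
    exact hij.ne' h2
  · intro hg
    have ht := tri_of_norm hg
    have hle : ∀ j, σ j ≤ j := fun j => by
      by_contra h1
      exact (h (σ j) j).2 rfl (ht _ _ (not_le.1 h1))
    have key : ∀ k : ℕ, ∀ j : Fin n, (j : ℕ) = k → σ j = j := by
      intro k
      induction k using Nat.strong_induction_on with
      | _ k ih =>
        intro j hj
        by_contra h1
        have h2 : σ j < j := lt_of_le_of_ne (hle j) h1
        have h3 := ih (σ j) (by rw [← hj]; exact h2) (σ j) rfl
        exact h1 (σ.injective h3)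
    ext j
    rw [key j j rfl, Equiv.Perm.one_apply]

end Pool.Agent.H.MP_7d3ffc_al.SP
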