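import Pool.Agent.H.MP_7d3ffc_al.SP.Ta

/-!
# Module SP/Td: monomial matrices and elementary matrices

* `mon_conj`: `m * transvection h c = transvection _ c' * m` with `c' = m (σ i) i * c / m (σ j) j` (compare the
  entries).
* `nn_mon`: the product is the matrix with the entries `-c⁻¹` at `(i, j)`, `c` at `(j, i)`, `0` at `(i, i)` and
  `(j, j)`, and the identity elsewhere (see `transv_neg`, `Sli_tv` in module DC/Sli for computations with these
  products: apply them to vectors).
-/

namespace Pool.Agent.H.MP_7d3ffc_al.SP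

open Matrix Matrix.SpecialLinearGroup Pool.Agent.H.MP_7d3ffc_al.DC

variable {n : ℕ} {F : Type*} [Field F]

theorem mon_conj {m : SpecialLinearGroup (Fin n) F} {σ : Equiv.Perm (Fin n)} (hm : IsMon m σ)
    {i j : Fin n} (h : i ≠ j) (c : F) :
    m * SpecialLinearGroup.transvection h c * m⁻¹ =
      SpecialLinearGroup.transvection (σ.injective.ne h) (m.1 (σ i) i * c * (m.1 (σ j) j)⁻¹) := by
  rw [mul_inv_eq_iff_eq_mul]
  refine Subtype.ext (Matrix.ext fun a b => ?_)
  change (m.1 * Matrix.transvection i j c) a b =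
    (Matrix.transvection (σ i) (σ j) (m.1 (σ i) i * c * (m.1 (σ j) j)⁻¹) * m.1) a b
  have hz : ∀ a b, a ≠ σ b → m.1 a b = 0 := fun a b hab => by
    by_contra h1
    exact hab ((hm a b).1 h1)
  have hj : m.1 (σ j) j ≠ 0 := (hm _ _).2 rfl
  by_cases hb : b = j
  · subst hb
    rw [Matrix.mul_transvection_apply_same]
    by_cases ha : a = σ i
    · subst ha
      rw [Matrix.transvection_mul_apply_same, inv_mul_cancel_right₀ hj, mul_comm c]
    · rw [Matrix.transvection_mul_apply_of_ne _ _ _ _ ha, hz a i ha, mul_zero, add_zero]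
  · rw [Matrix.mul_transvection_apply_of_ne _ _ _ _ hb]
    by_cases ha : a = σ i
    · subst ha
      rw [Matrix.transvection_mul_apply_same, hz (σ j) b (σ.injective.ne (Ne.symm hb)), mul_zero,
        add_zero]
    · rw [Matrix.transvection_mul_apply_of_ne _ _ _ _ ha]

theorem nn_mon {i j : Fin n} (h : i ≠ j) {c : F} (hc : c ≠ 0) :
    IsMon (SpecialLinearGroup.transvection h (-c⁻¹) * SpecialLinearGroup.transvection h.symm c *
      SpecialLinearGroup.transvection h (-c⁻¹)) (Equiv.swap i j) := by
  intro a b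
  have h0 : (SpecialLinearGroup.transvection h (-c⁻¹) * SpecialLinearGroup.transvection h.symm c *
      SpecialLinearGroup.transvection h (-c⁻¹)).1 =
      Matrix.transvection i j (-c⁻¹) * (Matrix.transvection j i c *
        (Matrix.transvection i j (-c⁻¹) * (1 : Matrix (Fin n) (Fin n) F))) := by
    rw [mul_one, mul_assoc]
    rfl
  rw [h0, eq_comm (a := a), Equiv.swap_apply_eq_iff]
  by_cases ha : a = i
  · subst ha
    rw [Matrix.transvection_mul_apply_same, Matrix.transvection_mul_apply_of_ne _ _ _ _ h,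
      Matrix.transvection_mul_apply_same, Matrix.transvection_mul_apply_same,
      Matrix.transvection_mul_apply_of_ne _ _ _ _ h.symm, Matrix.transvection_mul_apply_same,
      Equiv.swap_apply_left]
    have h1 : (1 : Matrix (Fin n) (Fin n) F) a b + -c⁻¹ * (1 : Matrix (Fin n) (Fin n) F) j b +
        -c⁻¹ * ((1 : Matrix (Fin n) (Fin n) F) j b + c * ((1 : Matrix (Fin n) (Fin n) F) a b +
          -c⁻¹ * (1 : Matrix (Fin n) (Fin n) F) j b)) =
        -c⁻¹ * (1 : Matrix (Fin n) (Fin n) F) j b := by
      field_simp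
      ring
    rw [h1, Matrix.one_apply]
    by_cases hb : j = b
    · rw [if_pos hb, mul_one]
      exact ⟨fun _ => hb.symm, fun _ => neg_ne_zero.2 (inv_ne_zero hc)⟩
    · rw [if_neg hb, mul_zero]
      exact ⟨fun h2 => absurd rfl h2, fun h2 => absurd h2.symm hb⟩
  · rw [Matrix.transvection_mul_apply_of_ne _ _ _ _ ha]
    by_cases haj : a = j
    · subst haj
      rw [Matrix.transvection_mul_apply_same, Matrix.transvection_mul_apply_of_ne _ _ _ _ h.symm,
        Matrix.transvection_mul_apply_same, Equiv.swap_apply_right]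
      have h1 : (1 : Matrix (Fin n) (Fin n) F) a b + c * ((1 : Matrix (Fin n) (Fin n) F) i b +
          -c⁻¹ * (1 : Matrix (Fin n) (Fin n) F) a b) =
          c * (1 : Matrix (Fin n) (Fin n) F) i b := by
        field_simp
        ring
      rw [h1, Matrix.one_apply]
      by_cases hb : i = b
      · rw [if_pos hb, mul_one]
        exact ⟨fun _ => hb.symm, fun _ => hc⟩
      · rw [if_neg hb, mul_zero]
        exact ⟨fun h2 => absurd rfl h2, fun h2 => absurd h2.symm hb⟩
    · rw [Matrix.transvection_mul_apply_of_ne _ _ _ _ haj,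
        Matrix.transvection_mul_apply_of_ne _ _ _ _ ha, Equiv.swap_apply_of_ne_of_ne ha haj,
        Matrix.one_apply]
      by_cases hb : a = b
      · rw [if_pos hb]
        exact ⟨fun _ => hb.symm, fun _ => one_ne_zero⟩
      · rw [if_neg hb]
        exact ⟨fun h2 => absurd rfl h2, fun h2 => absurd h2.symm hb⟩

end Pool.Agent.H.MP_7d3ffc_al.SP
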