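import Pool.Agent.H.MP_7d3ffc_al.DC.Adj
import Pool.Agent.H.MP_7d3ffc_al.DC.Sli

/-!
# Module SP/Te: conjugation of unitriangular matrices by the representative of a simple reflection

* `Te_conj`: see `Adj_entry`, `Adj_mem` in module DC/Adj (private there; copy them): conjugation with a
  transvection in the positions `(r, s)`, neighbours, keeps `UT` if the entries `(r, s)` and `(s, r)` of
  `u` are `0`, and these entries stay `0`.
* `nn_conj`: three times `Te_conj` (`nn h` is a product of three transvections).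
* `dec_ut`: `v = u * transvection (-(u i j))`, the entry `(i, j)` of a product of unitriangular matrices is
  the sum of the entries for neighbours (`ent` in module DC/Adj).
* `nn_tv`: from `transv_neg` of module DC/Sli (import it if you like, or compute).
-/

namespace Pool.Agent.H.MP_7d3ffc_al.SP

open Matrix Matrix.SpecialLinearGroup Pool.Agent.H.MP_7d3ffc_al.DC

variable {n : ℕ} {F : Type*} [Field F]

/-- the representative of the transposition of `i` and `j` -/
def nn {i j : Fin n} (h : i ≠ j) : SpecialLinearGroup (Fin n) F :=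
  SpecialLinearGroup.transvection h 1 * SpecialLinearGroup.transvection h.symm (-1) *
    SpecialLinearGroup.transvection h 1

/-- conjugation by a transvection -/
private theorem Te_entry {r s : Fin n} (h : r ≠ s) (m : F) (u : SpecialLinearGroup (Fin n) F)
    (h0 : u.1 s r = 0) (a b : Fin n) :
    (SpecialLinearGroup.transvection h m * u * (SpecialLinearGroup.transvection h m)⁻¹).1 a b =
      u.1 a b + (if a = r then m * u.1 s b else 0) - (if b = s then m * u.1 a r else 0) := by
  have h1 : (SpecialLinearGroup.transvection h m * u *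
      (SpecialLinearGroup.transvection h m)⁻¹).1 =
      Matrix.transvection r s m * u.1 * Matrix.transvection r s (-m) := by
    rw [SpecialLinearGroup.transvection_inv]
    rfl
  rw [h1]
  by_cases hb : b = s
  · subst hb
    rw [Matrix.mul_transvection_apply_same, if_pos rfl]
    by_cases ha : a = r
    · subst ha
      rw [Matrix.transvection_mul_apply_same, Matrix.transvection_mul_apply_same, if_pos rfl, h0]
      ring
    · rw [Matrix.transvection_mul_apply_of_ne _ _ _ _ ha,
        Matrix.transvection_mul_apply_of_ne _ _ _ _ ha, if_neg ha]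
      ring
  · rw [Matrix.mul_transvection_apply_of_ne _ _ _ _ hb, if_neg hb]
    by_cases ha : a = r
    · subst ha
      rw [Matrix.transvection_mul_apply_same, if_pos rfl]
      ring
    · rw [Matrix.transvection_mul_apply_of_ne _ _ _ _ ha, if_neg ha]
      ring

private theorem Te_mem {r s : Fin n} (h : r ≠ s) (ha : (s : ℕ) = r + 1 ∨ (r : ℕ) = s + 1)
    (m : F) {u : SpecialLinearGroup (Fin n) F} (hu : u ∈ UT n F) (h0 : u.1 s r = 0)
    (_ : u.1 r s = 0) :
    SpecialLinearGroup.transvection h m * u * (SpecialLinearGroup.transvection h m)⁻¹ ∈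
      UT n F := by
  rw [mem_UT] at hu ⊢
  refine ⟨fun a b hab => ?_, fun a => ?_⟩
  · rw [Te_entry h m u h0, hu.1 a b hab, zero_add]
    have hab' : (b : ℕ) < a := hab
    by_cases h1 : a = r
    · by_cases h2 : b = s
      · rw [if_pos h1, if_pos h2, h2, h1, hu.2, hu.2, sub_self]
      · rw [if_pos h1, if_neg h2, hu.1 s b, mul_zero, sub_zero]
        have h3 : (b : ℕ) ≠ s := fun h => h2 (Fin.ext h)
        have h4 : (a : ℕ) = r := congrArg Fin.val h1
        exact Fin.lt_def.2 (by omega)
    · by_cases h2 : b = s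
      · rw [if_neg h1, if_pos h2, hu.1 a r, mul_zero, sub_zero]
        have h3 : (a : ℕ) ≠ r := fun h => h1 (Fin.ext h)
        have h4 : (b : ℕ) = s := congrArg Fin.val h2
        exact Fin.lt_def.2 (by omega)
      · rw [if_neg h1, if_neg h2, sub_zero]
  · rw [Te_entry h m u h0, hu.2]
    by_cases h1 : a = r
    · rw [if_pos h1, if_neg (fun h2 => h (h1.symm.trans h2)), h1, h0, mul_zero, add_zero, sub_zero]
    · by_cases h2 : a = s
      · rw [if_neg h1, if_pos h2, h2, h0, mul_zero, add_zero, sub_zero]
      · rw [if_neg h1, if_neg h2, add_zero, sub_zero]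

theorem Te_conj {r s : Fin n} (h : r ≠ s) (hs : (s : ℕ) = r + 1 ∨ (r : ℕ) = s + 1) (m : F)
    {u : SpecialLinearGroup (Fin n) F} (hu : u ∈ UT n F) (h0 : u.1 r s = 0) (h1 : u.1 s r = 0) :
    SpecialLinearGroup.transvection h m * u * (SpecialLinearGroup.transvection h m)⁻¹ ∈ UT n F ∧
      (SpecialLinearGroup.transvection h m * u *
        (SpecialLinearGroup.transvection h m)⁻¹).1 r s = 0 ∧
      (SpecialLinearGroup.transvection h m * u *
        (SpecialLinearGroup.transvection h m)⁻¹).1 s r = 0 := by
  refine ⟨Te_mem h hs m hu h1 h0, ?_, ?_⟩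
  · rw [Te_entry h m u h1, if_pos rfl, if_pos rfl, h0, (mem_UT.1 hu).2, (mem_UT.1 hu).2]
    ring
  · rw [Te_entry h m u h1, if_neg h.symm, if_neg h, h1]
    ring

theorem nn_conj {i j : Fin n} (h : i ≠ j) (hs : (j : ℕ) = i + 1)
    {u : SpecialLinearGroup (Fin n) F} (hu : u ∈ UT n F) (h0 : u.1 i j = 0) :
    nn h * u * (nn h)⁻¹ ∈ UT n F := by
  have hji : u.1 j i = 0 := (mem_UT.1 hu).1 j i (Fin.lt_def.2 (by omega))
  obtain ⟨a1, a2, a3⟩ := Te_conj h (Or.inl hs) 1 hu h0 hji
  obtain ⟨b1, b2, b3⟩ := Te_conj h.symm (Or.inr hs) (-1) a1 a3 a2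
  obtain ⟨c1, -, -⟩ := Te_conj h (Or.inl hs) 1 b1 b3 b2
  have e : nn h * u * (nn h)⁻¹ = SpecialLinearGroup.transvection h 1 *
      (SpecialLinearGroup.transvection h.symm (-1) *
        (SpecialLinearGroup.transvection h 1 * u * (SpecialLinearGroup.transvection h 1)⁻¹) *
          (SpecialLinearGroup.transvection h.symm (-1))⁻¹) *
      (SpecialLinearGroup.transvection h (1 : F))⁻¹ := by
    unfold nn
    group
  rw [e]
  exact c1

theorem dec_ut {i j : Fin n} (h : i ≠ j) (hs : (j : ℕ) = i + 1)
    {u : SpecialLinearGroup (Fin n) F} (hu : u ∈ UT n F) :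
    ∃ v ∈ UT n F, v.1 i j = 0 ∧ u = v * SpecialLinearGroup.transvection h (u.1 i j) := by
  have hlt : i < j := Fin.lt_def.2 (by omega)
  refine ⟨u * SpecialLinearGroup.transvection h (-(u.1 i j)), mul_mem hu (el_mem hlt _), ?_, ?_⟩
  · have e : (u * SpecialLinearGroup.transvection h (-(u.1 i j))).1 =
        u.1 * Matrix.transvection i j (-(u.1 i j)) := rfl
    rw [e, Matrix.mul_transvection_apply_same, (mem_UT.1 hu).2]
    ring
  · rw [mul_assoc, ← SpecialLinearGroup.transvection_add, neg_add_cancel,
      SpecialLinearGroup.transvection_coeff_zero, mul_one]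

theorem nn_tv {i j : Fin n} (h : i ≠ j) (a : F) :
    nn h * SpecialLinearGroup.transvection h a =
      SpecialLinearGroup.transvection h.symm (-a) * nn h := by
  have h1 := transv_neg h a
  unfold nn
  rw [h1]
  simp only [mul_assoc]

end Pool.Agent.H.MP_7d3ffc_al.SP
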