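import Pool.Agent.H.MP_7d3ffc_al.SP.Tc
import Pool.Agent.H.MP_7d3ffc_al.SP.Td
import Pool.Agent.H.MP_7d3ffc_al.SP.Te

/-!
# Module SP/Tf: the axiom `s B w ⊆ B w B ∪ B s w B` for `SL_n`

`x c = transvection h c` (positions `(i, j)`, `j = i + 1`), `y c = transvection h.symm c`, `B` the normalizer of
`UT`. `nn_mon'`: `nn_mon` with `c = -1`.
* `bn_sl`: `b = u * t` (`norm_split`), `u = v * x c` (`dec_ut`), `x c * t = t * x c'` (`mon_conj` for `t⁻¹`, `σ = 1`), so
  `b = v * t * x c'`, and `b1 = nn * (v * t) * nn⁻¹ ∈ B` (`nn_conj`; `nn * t * nn⁻¹` is monomial with the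
  permutation `1`, `mon_norm`). So `nn * b * m = b1 * (nn * x c' * m)`. (`UT ≤ B`: `Subgroup.le_normalizer`.)
  Case 1: `σ⁻¹ i < σ⁻¹ j`: `d = m⁻¹ * x c' * m ∈ UT` (`mon_conj` for `m⁻¹`, `el_mem`), `nn * x c' * m = nn * m * d`: second
  alternative. Case 2: `σ⁻¹ j < σ⁻¹ i`. If `c' = 0`: second alternative with `d = 1`. Otherwise put `c = -c'`:
  `nn * x c' = y c * nn` (`nn_tv`) and `y c = x c⁻¹ * z * x c⁻¹` with `z = x (-c⁻¹) * y c * x (-c⁻¹)` monomial with
  the permutation `swap i j` (`nn_mon`). `nn * m` is monomial with `σ' = swap i j * σ`, `σ'⁻¹ i = σ⁻¹ j < σ⁻¹ i = σ'⁻¹ j`, so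
  `d = (nn * m)⁻¹ * x c⁻¹ * (nn * m) ∈ UT`. So `nn * x c' * m = x c⁻¹ * z * x c⁻¹ * (nn * m) = (x c⁻¹ * (z * nn)) * m * d`,
  and `z * nn` is monomial with the permutation `1`, so in `B`: first alternative.
-/

namespace Pool.Agent.H.MP_7d3ffc_al.SP

open Matrix Matrix.SpecialLinearGroup Pool.Agent.H.MP_7d3ffc_al.DC

variable {n : ℕ} {F : Type*} [Field F]

theorem nn_mon' {i j : Fin n} (h : i ≠ j) :
    IsMon (nn h : SpecialLinearGroup (Fin n) F) (Equiv.swap i j) := by
  have h1 := nn_mon (F := F) h (c := -1) (neg_ne_zero.2 one_ne_zero)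
  have h2 : (-(-1 : F)⁻¹) = 1 := by norm_num
  rw [h2] at h1
  exact h1

/-- a root element conjugated by a monomial matrix -/
theorem Tf_up {i j : Fin n} (h : i ≠ j) {m : SpecialLinearGroup (Fin n) F}
    {σ : Equiv.Perm (Fin n)} (hm : IsMon m σ) (hl : σ⁻¹ i < σ⁻¹ j) (c : F) :
    m⁻¹ * SpecialLinearGroup.transvection h c * m ∈ UT n F := by
  have h1 := mon_conj (IsMon_inv hm) h c
  rw [inv_inv] at h1
  rw [h1]
  exact el_mem hl _

theorem bn_sl {i j : Fin n} (h : i ≠ j) (hs : (j : ℕ) = i + 1) {b : SpecialLinearGroup (Fin n) F}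
    (hb : b ∈ Subgroup.normalizer (UT n F : Set (SpecialLinearGroup (Fin n) F)))
    {m : SpecialLinearGroup (Fin n) F} {σ : Equiv.Perm (Fin n)} (hm : IsMon m σ) :
    ∃ c ∈ Subgroup.normalizer (UT n F : Set (SpecialLinearGroup (Fin n) F)),
      ∃ d ∈ Subgroup.normalizer (UT n F : Set (SpecialLinearGroup (Fin n) F)),
        nn h * b * m = c * m * d ∨ nn h * b * m = c * (nn h * m) * d := by
  have hUB : UT n F ≤ Subgroup.normalizer (UT n F : Set (SpecialLinearGroup (Fin n) F)) :=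
    Subgroup.le_normalizer
  obtain ⟨u, hu, t, ht, rfl⟩ := norm_split hb
  obtain ⟨v, hv, h0, hv2⟩ := dec_ut h hs hu
  obtain ⟨a, ha⟩ : ∃ a : F, a = u.1 i j := ⟨_, rfl⟩
  rw [← ha] at hv2
  obtain ⟨c', hc'⟩ : ∃ c' : F, t⁻¹ * SpecialLinearGroup.transvection h a * t =
      SpecialLinearGroup.transvection h c' := by
    have h1 := mon_conj (IsMon_inv ht) h a
    rw [inv_inv] at h1
    exact ⟨_, h1⟩
  have hb1 : nn h * (v * t) * (nn h)⁻¹ ∈
      Subgroup.normalizer (UT n F : Set (SpecialLinearGroup (Fin n) F)) := by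
    have h1 : nn h * (v * t) * (nn h)⁻¹ = (nn h * v * (nn h)⁻¹) * (nn h * t * (nn h)⁻¹) := by
      group
    rw [h1]
    refine mul_mem (hUB (nn_conj h hs hv h0)) ?_
    have h2 := IsMon_mul (IsMon_mul (nn_mon' (F := F) h) ht) (IsMon_inv (nn_mon' (F := F) h))
    rw [mul_one, mul_inv_cancel] at h2
    exact (mon_norm h2).1 rfl
  have hmain : nn h * (u * t) * m = (nn h * (v * t) * (nn h)⁻¹) *
      (nn h * SpecialLinearGroup.transvection h c' * m) := by
    rw [← hc', hv2]
    group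
  rw [hmain]
  rcases lt_trichotomy (σ⁻¹ i) (σ⁻¹ j) with hl | hl | hl
  · refine ⟨_, hb1, m⁻¹ * SpecialLinearGroup.transvection h c' * m, hUB (Tf_up h hm hl c'),
      Or.inr ?_⟩
    group
  · exact absurd (σ⁻¹.injective hl) h
  · by_cases hc0 : c' = 0
    · refine ⟨_, hb1, 1, one_mem _, Or.inr ?_⟩
      rw [hc0, SpecialLinearGroup.transvection_coeff_zero]
      group
    · have hcn : -c' ≠ 0 := neg_ne_zero.2 hc0
      obtain ⟨z, hz⟩ : ∃ z : SpecialLinearGroup (Fin n) F,
        z = SpecialLinearGroup.transvection h (-(-c')⁻¹) *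
          SpecialLinearGroup.transvection h.symm (-c') *
          SpecialLinearGroup.transvection h (-(-c')⁻¹) := ⟨_, rfl⟩
      have hzm : IsMon z (Equiv.swap i j) := by
        rw [hz]
        exact nn_mon h hcn
      have hy : SpecialLinearGroup.transvection h.symm (-c') =
          SpecialLinearGroup.transvection h ((-c')⁻¹) * z *
            SpecialLinearGroup.transvection h ((-c')⁻¹) := by
        rw [hz, ← SpecialLinearGroup.transvection_inv h ((-c')⁻¹)]
        group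
      have hnm : IsMon (nn h * m) (Equiv.swap i j * σ) := IsMon_mul (nn_mon' h) hm
      have hl2 : (Equiv.swap i j * σ)⁻¹ i < (Equiv.swap i j * σ)⁻¹ j := by
        rw [_root_.mul_inv_rev, Equiv.swap_inv, Equiv.Perm.mul_apply, Equiv.Perm.mul_apply,
          Equiv.swap_apply_left, Equiv.swap_apply_right]
        exact hl
      have hd := Tf_up h hnm hl2 ((-c')⁻¹)
      have hzn : z * nn h ∈
          Subgroup.normalizer (UT n F : Set (SpecialLinearGroup (Fin n) F)) := by
        have h2 := IsMon_mul hzm (nn_mon' (F := F) h)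
        rw [Equiv.swap_mul_self] at h2
        exact (mon_norm h2).1 rfl
      refine ⟨nn h * (v * t) * (nn h)⁻¹ *
        (SpecialLinearGroup.transvection h ((-c')⁻¹) * (z * nn h)), ?_, _, hUB hd, Or.inl ?_⟩
      · refine mul_mem hb1 (mul_mem (hUB ?_) hzn)
        have hij : i < j := Fin.lt_def.2 (by omega)
        exact el_mem hij _
      · rw [nn_tv, hy]
        group

end Pool.Agent.H.MP_7d3ffc_al.SP
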