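import Pool.Agent.H.MP_7d3ffc_al.SP.Tb
import Pool.Agent.H.MP_7d3ffc_al.SP.Tf
import Pool.Agent.H.MP_7d3ffc_al.DC.Sli

/-!
# Module SP/Tg: `SL_n` is generated by the normalizer of `UT` and the monomial matrices; conjugates

* `gen_sl`: `n ≤ 1`: the group is trivial. `n ≥ 2`: `SL_ind` (module DC/Sli): `transvection h a` for `i < j` is in
  `UT` (`el_mem`), for `j < i` it is `nn _ * transvection _ (-a) * (nn _)⁻¹` (`nn_tv`), `nn` is monomial.
* `ne_sl`: `b = transvection h 1 ∈ UT`; `nn h * b * (nn h)⁻¹ = transvection h.symm (-1)` is not upper triangular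
  (`tri_of_norm`).
* `root_sl`: `σ⁻¹ i < σ⁻¹ j`, because otherwise `invn_lt`; `mon_conj` for `m⁻¹`.
-/

namespace Pool.Agent.H.MP_7d3ffc_al.SP

open Matrix Matrix.SpecialLinearGroup Pool.Agent.H.MP_7d3ffc_al.DC

variable {n : ℕ} {F : Type*} [Field F]

theorem gen_sl : Subgroup.normalizer (UT n F : Set (SpecialLinearGroup (Fin n) F)) ⊔
    Nm n F = ⊤ := by
  rw [eq_top_iff]
  intro g _
  rcases lt_or_ge n 2 with hn | hn
  · have : Subsingleton (Fin n) := Fin.subsingleton_iff_le_one.2 (by omega)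
    rw [Subsingleton.elim g 1]
    exact one_mem _
  · have hU : ∀ u ∈ UT n F, u ∈ Subgroup.normalizer
        (UT n F : Set (SpecialLinearGroup (Fin n) F)) ⊔ Nm n F := fun u hu =>
      (le_sup_left : _ ≤ Subgroup.normalizer
        (UT n F : Set (SpecialLinearGroup (Fin n) F)) ⊔ Nm n F) (Subgroup.le_normalizer hu)
    have hN : ∀ {i j : Fin n} (h : i ≠ j), (nn h : SpecialLinearGroup (Fin n) F) ∈
        Subgroup.normalizer (UT n F : Set (SpecialLinearGroup (Fin n) F)) ⊔ Nm n F := fun h =>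
      (le_sup_right : _ ≤ Subgroup.normalizer
        (UT n F : Set (SpecialLinearGroup (Fin n) F)) ⊔ Nm n F) ⟨_, nn_mon' h⟩
    refine SL_ind hn (fun g => g ∈ Subgroup.normalizer
      (UT n F : Set (SpecialLinearGroup (Fin n) F)) ⊔ Nm n F) ?_ (fun _ _ => mul_mem) g
    intro i j h a
    rcases lt_or_gt_of_ne h with h1 | h1
    · exact hU _ (el_mem h1 a)
    · have h2 := nn_tv (F := F) h.symm (-a)
      rw [neg_neg] at h2
      have h3 : SpecialLinearGroup.transvection h a =
          nn h.symm * SpecialLinearGroup.transvection h.symm (-a) * (nn h.symm)⁻¹ := by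
        rw [h2, mul_inv_cancel_right]
      rw [h3]
      exact mul_mem (mul_mem (hN _) (hU _ (el_mem h1 (-a)))) (inv_mem (hN _))

theorem ne_sl {i j : Fin n} (h : i ≠ j) (hs : (j : ℕ) = i + 1) :
    ∃ b ∈ Subgroup.normalizer (UT n F : Set (SpecialLinearGroup (Fin n) F)),
      nn h * b * (nn h)⁻¹ ∉ Subgroup.normalizer (UT n F : Set (SpecialLinearGroup (Fin n) F)) := by
  have hij : i < j := by
    rw [Fin.lt_def]
    omega
  refine ⟨SpecialLinearGroup.transvection h 1, Subgroup.le_normalizer (el_mem hij 1),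
    fun hc => ?_⟩
  rw [nn_tv, mul_inv_cancel_right] at hc
  have h1 := tri_of_norm hc j i hij
  rw [transvection_coe, Matrix.add_apply, Matrix.one_apply_ne h.symm, zero_add,
    Matrix.single_apply_same] at h1
  exact one_ne_zero (neg_eq_zero.1 h1)

theorem root_sl {i j : Fin n} (h : i ≠ j) (hs : (j : ℕ) = i + 1)
    {m : SpecialLinearGroup (Fin n) F} {σ : Equiv.Perm (Fin n)} (hm : IsMon m σ)
    (hl : invn σ < invn (Equiv.swap i j * σ)) (c : F) :
    m⁻¹ * SpecialLinearGroup.transvection h c * m ∈ UT n F := by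
  have hlt : σ⁻¹ i < σ⁻¹ j := by
    rcases lt_trichotomy (σ⁻¹ i) (σ⁻¹ j) with h1 | h1 | h1
    · exact h1
    · exact absurd (σ⁻¹.injective h1) h
    · exact absurd (invn_lt σ hs h1) (not_lt.2 hl.le)
  have h1 := mon_conj (IsMon_inv hm) h c
  rw [inv_inv] at h1
  rw [h1]
  exact el_mem hlt _

end Pool.Agent.H.MP_7d3ffc_al.SP
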