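import Pool.Agent.H.MP_7d3ffc_al.SP.Tg
import Pool.Agent.H.MP_7d3ffc_al.SP.Sd
import Pool.Agent.H.MP_7d3ffc_al.DC.Gen
import Pool.Agent.H.MP_7d3ffc_al.DC.Syl
import Pool.Agent.H.MP_7d3ffc_al.LC.BnD

/-!
# Module SP/Th: the special linear groups have a split BN-pair as in the main theorem
-/

namespace Pool.Agent.H.MP_7d3ffc_al.SP

open Matrix Matrix.SpecialLinearGroup Pool.Agent.H.MP_7d3ffc_al.DC

variable {n : ℕ} {F : Type*} [Field F]

theorem Th_ne {i j : Fin n} (hs : (j : ℕ) = i + 1) : i ≠ j := fun h => by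
  have := congrArg Fin.val h
  omega

theorem Th_lt {i j : Fin n} (hs : (j : ℕ) = i + 1) : i < j := Fin.lt_def.2 (by omega)

/-- the elementary matrices in the positions `(i, j)` -/
def rootG {i j : Fin n} (h : i ≠ j) : Subgroup (SpecialLinearGroup (Fin n) F) where
  carrier := {g | ∃ c : F, g = SpecialLinearGroup.transvection h c}
  mul_mem' := by
    rintro _ _ ⟨a, rfl⟩ ⟨b, rfl⟩
    exact ⟨a + b, (SpecialLinearGroup.transvection_add h a b).symm⟩
  one_mem' := ⟨0, (SpecialLinearGroup.transvection_coeff_zero h).symm⟩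
  inv_mem' := by
    rintro _ ⟨a, rfl⟩
    exact ⟨-a, SpecialLinearGroup.transvection_inv h a⟩

variable (n F) in
/-- the split BN-pair of the special linear group -/
noncomputable def slBN : LC.SplitBN (UT n F) where
  I := {x : Fin n × Fin n // (x.2 : ℕ) = x.1 + 1}
  W := Equiv.Perm (Fin n)
  s x := Equiv.swap x.1.1 x.1.2
  s_sq x := Equiv.swap_mul_self _ _
  len := invn
  len_lt w hw := by
    obtain ⟨i, j, hs, h⟩ := exists_desc w hw
    exact ⟨⟨(i, j), hs⟩, invn_lt w hs h⟩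
  N := Nm n F
  π := Npi n F
  ker m := mon_norm (Npi_spec m)
  n x := ⟨nn (Th_ne x.2), _, nn_mon' (Th_ne x.2)⟩
  n_simple x := Npi_eq (nn_mon' (Th_ne x.2))
  gen := gen_sl
  bn x b hb m := bn_sl (Th_ne x.2) x.2 hb (Npi_spec m)
  ne x := ne_sl (Th_ne x.2) x.2
  split b hb := by
    obtain ⟨u, hu, t, ht, h⟩ := norm_split hb
    exact ⟨u, hu, t, ⟨1, ht⟩, (mon_norm ht).1 rfl, h⟩
  X x := rootG (Th_ne x.2)
  X_le x := by
    rintro _ ⟨c, rfl⟩
    exact el_mem (Th_lt x.2) c
  dec x u hu := by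
    obtain ⟨v, hv, h0, h⟩ := dec_ut (Th_ne x.2) x.2 hu
    exact ⟨v, hv, _, ⟨_, rfl⟩, h, nn_conj (Th_ne x.2) x.2 hv h0⟩
  root x m hl := by
    rintro _ ⟨c, rfl⟩
    exact root_sl (Th_ne x.2) x.2 (Npi_spec m) hl c

/-- the diagonal matrix with the entries `u` at `i` and `u⁻¹` at `j` -/
theorem Th_tor {i j : Fin n} (h : i < j) (u : Fˣ) : ∃ t : SpecialLinearGroup (Fin n) F,
    IsMon t 1 ∧ ∀ c : F, t * SpecialLinearGroup.transvection h.ne c * t⁻¹ =
      SpecialLinearGroup.transvection h.ne ((u : F) ^ 2 * c) := by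
  obtain ⟨d, hd⟩ : ∃ d : Fin n → F, d = Function.update (Function.update (fun _ => (1 : F)) i u)
    j ((u⁻¹ : Fˣ) : F) := ⟨_, rfl⟩
  have hdi : d i = u := by
    rw [hd, Function.update_of_ne h.ne, Function.update_self]
  have hdj : d j = ((u⁻¹ : Fˣ) : F) := by
    rw [hd, Function.update_self]
  have hd0 : ∀ k, d k ≠ 0 := by
    intro k
    by_cases hkj : k = j
    · rw [hkj, hdj]
      exact Units.ne_zero _
    · by_cases hki : k = i
      · rw [hki, hdi]
        exact Units.ne_zero _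
      · rw [hd, Function.update_of_ne hkj, Function.update_of_ne hki]
        exact one_ne_zero
  have hdet : (diagonal d).det = 1 := by
    rw [det_diagonal, ← Finset.mul_prod_erase _ _ (Finset.mem_univ i),
      ← Finset.mul_prod_erase _ _ (Finset.mem_erase.2 ⟨h.ne', Finset.mem_univ j⟩), hdi, hdj,
      Finset.prod_eq_one, mul_one, Units.mul_inv]
    intro k hk
    rw [Finset.mem_erase, Finset.mem_erase] at hk
    rw [hd, Function.update_of_ne hk.1, Function.update_of_ne hk.2.1]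
  have hm : IsMon (⟨diagonal d, hdet⟩ : SpecialLinearGroup (Fin n) F) 1 := by
    intro k l
    change diagonal d k l ≠ 0 ↔ k = l
    by_cases hkl : k = l
    · rw [hkl, diagonal_apply_eq]
      exact ⟨fun _ => rfl, fun _ => hd0 l⟩
    · rw [diagonal_apply_ne _ hkl]
      exact ⟨fun h => absurd rfl h, fun h => absurd h hkl⟩
  refine ⟨⟨diagonal d, hdet⟩, hm, fun c => ?_⟩
  have h1 := mon_conj hm h.ne c
  have h2 : (diagonal d) ((1 : Equiv.Perm (Fin n)) i) i * c *
      ((diagonal d) ((1 : Equiv.Perm (Fin n)) j) j)⁻¹ = (u : F) ^ 2 * c := by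
    rw [Equiv.Perm.one_apply, Equiv.Perm.one_apply, diagonal_apply_eq, diagonal_apply_eq, hdi, hdj,
      ← Units.val_inv_eq_inv_val, inv_inv]
    ring
  change _ = SpecialLinearGroup.transvection h.ne ((diagonal d) ((1 : Equiv.Perm (Fin n)) i) i * c *
      ((diagonal d) ((1 : Equiv.Perm (Fin n)) j) j)⁻¹) at h1
  rw [h1, h2]

theorem bn_of_sl {p : ℕ} [Fact p.Prime] [CharP F p] [Finite F] (hq : p < Nat.card F) :
    LC.BNFactor p (SpecialLinearGroup (Fin n) F) := by
  refine ⟨UT n F, slBN n F, UT_pgroup, UT_index, fun μ hμ => ?_, fun x y _ => Or.inl ?_,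
    Or.inr ?_⟩
  · have h1 : ∃ (i j : Fin n) (h : i < j) (a : F), μ (el h a) ≠ 1 := by
      by_contra h1
      push Not at h1
      apply hμ
      ext u
      have h2 : ∀ u : UT n F, μ u = 1 := by
        refine UT_ind (fun u => μ u = 1) (map_one μ) fun i j h a u hu => ?_
        rw [map_mul, h1 i j h a, hu, one_mul]
      rw [h2 u]
      rfl
    obtain ⟨i, j, h, a, ha⟩ := h1
    choose t ht1 ht2 using Th_tor (n := n) (F := F) h
    exact orb_root (UT n F) hq μ (fun c => el h c) (fun a b => el_add h a b) t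
      (fun u => (mon_norm (ht1 u)).1 rfl) 2 (Or.inr rfl) (fun u c => ht2 u c) ⟨a, ha⟩
  · intro u hu
    obtain ⟨x, hx⟩ := x
    have h1 : ⁅UT n F, UT n F⁆ ≤ Mg n F hx := by
      rw [Subgroup.commutator_le]
      intro a ha b hb
      rw [mem_Mg]
      have h2 := (ent n F hx).map_mul (⟨a, ha⟩ * ⟨b, hb⟩) (⟨a, ha⟩⁻¹ * ⟨b, hb⟩⁻¹)
      refine ⟨?_, ?_⟩
      · exact mul_mem (mul_mem (mul_mem ha hb) (inv_mem ha)) (inv_mem hb)
      · have h3 : ent n F hx (⟨a, ha⟩ * ⟨b, hb⟩ * ⟨a, ha⟩⁻¹ * ⟨b, hb⟩⁻¹) = 1 := by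
          rw [map_mul, map_mul, map_mul, map_inv, map_inv, mul_comm (ent n F hx ⟨a, ha⟩),
            mul_inv_cancel_right, mul_inv_cancel]
        exact Multiplicative.ofAdd.injective h3
    have h4 := mem_Mg hx |>.1 (h1 hu)
    exact nn_conj (Th_ne hx) hx h4.1 h4.2
  · rintro s ⟨σ, hs⟩ t ⟨τ, ht⟩ hsn htn
    have h1 : σ = 1 := (mon_norm hs).2 hsn
    have h2 : τ = 1 := (mon_norm ht).2 htn
    subst h1
    subst h2
    apply Subtype.ext
    change s.1 * t.1 = t.1 * s.1
    have hsd : s.1 = diagonal fun i => s.1 i i := by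
      ext i j
      by_cases hij : i = j
      · rw [hij, diagonal_apply_eq]
      · rw [diagonal_apply_ne _ hij]
        by_contra h3
        exact hij ((hs i j).1 h3)
    have htd : t.1 = diagonal fun i => t.1 i i := by
      ext i j
      by_cases hij : i = j
      · rw [hij, diagonal_apply_eq]
      · rw [diagonal_apply_ne _ hij]
        by_contra h3
        exact hij ((ht i j).1 h3)
    rw [hsd, htd, diagonal_mul_diagonal, diagonal_mul_diagonal]
    congr 1
    funext i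
    exact mul_comm _ _

end Pool.Agent.H.MP_7d3ffc_al.SP
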